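import Mathlib

/-!
# The points of `t ↦ ζ(σ + it)` on a line through the origin
-/

open MeasureTheory Set

namespace Pool.Agent.H779.LX

/-- the ordinates `t` with `|t - T| ≤ r` for which `ζ(σ + it)` lies on the real line spanned
by `u` -/
def onLine (u : ℂ) (σ T r : ℝ) : Set ℝ :=
  {t | |t - T| ≤ r ∧ ∃ x : ℝ, riemannZeta (σ + t * Complex.I) = x * u}

/-- the number of points on the line that meets the curve least often -/
noncomputable def fewest (σ T r : ℝ) : ENNReal :=
  ⨅ u : {u : ℂ // ‖u‖ = 1}, ((onLine u σ T r).encard : ENNReal)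

/-- the number of points on the line that meets the curve most often -/
noncomputable def most (σ T r : ℝ) : ENNReal :=
  ⨆ u : {u : ℂ // ‖u‖ = 1}, ((onLine u σ T r).encard : ENNReal)

/-- the number of real values -/
noncomputable def onReal (σ T r : ℝ) : ENNReal := ((onLine 1 σ T r).encard : ENNReal)

lemma fewest_le_onReal (σ T r : ℝ) : fewest σ T r ≤ onReal σ T r :=
  iInf_le _ (⟨1, norm_one⟩ : {u : ℂ // ‖u‖ = 1})

lemma onReal_le_most (σ T r : ℝ) : onReal σ T r ≤ most σ T r :=
  le_iSup (fun u : {u : ℂ // ‖u‖ = 1} => ((onLine u σ T r).encard : ENNReal)) ⟨1, norm_one⟩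

lemma fewest_le_most (σ T r : ℝ) : fewest σ T r ≤ most σ T r :=
  (fewest_le_onReal σ T r).trans (onReal_le_most σ T r)

lemma onLine_mono (u : ℂ) (σ : ℝ) {T r T' r' : ℝ} (h : |T - T'| + r ≤ r') :
    onLine u σ T r ⊆ onLine u σ T' r' := by
  rintro t ⟨h1, h2⟩
  refine ⟨?_, h2⟩
  have h3 : |t - T'| ≤ |t - T| + |T - T'| := abs_sub_le _ _ _
  linarith

lemma fewest_mono (σ : ℝ) {T r T' r' : ℝ} (h : |T - T'| + r ≤ r') :
    fewest σ T r ≤ fewest σ T' r' :=
  iInf_mono fun u => by
    have := Set.encard_le_encard (onLine_mono u σ h)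
    exact_mod_cast this

lemma most_mono (σ : ℝ) {T r T' r' : ℝ} (h : |T - T'| + r ≤ r') :
    most σ T r ≤ most σ T' r' :=
  iSup_mono fun u => by
    have := Set.encard_le_encard (onLine_mono u σ h)
    exact_mod_cast this

end Pool.Agent.H779.LX
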