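import Mathlib

/-!
# The variation of the argument of a curve and the points of the curve on a line
-/

open MeasureTheory Set Filter Topology

namespace Pool.Agent.H779.LX

/-- the change of the argument while the curve is in the open upper half-plane -/
lemma arg_upper {w w' : ℝ → ℂ} {a b : ℝ} (hab : a ≤ b)
    (hd : ∀ t ∈ Icc a b, HasDerivAt w (w' t) t) (hc : ContinuousOn w' (Icc a b))
    (hp : ∀ t ∈ Icc a b, 0 < (w t).im) :
    |∫ t in a..b, (w' t / w t).im| ≤ Real.pi := by
  have hs : ∀ t ∈ Icc a b, w t ∈ Complex.slitPlane := fun t ht =>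
    Complex.mem_slitPlane_iff.2 (Or.inr (hp t ht).ne')
  have hcw : ContinuousOn w (Icc a b) := fun t ht => (hd t ht).continuousAt.continuousWithinAt
  have hne : ∀ t ∈ Icc a b, w t ≠ 0 := fun t ht h => by
    have := hp t ht
    rw [h] at this
    simp at this
  have hcq : ContinuousOn (fun t => w' t / w t) (Icc a b) := hc.div hcw hne
  have h1 : ∫ t in a..b, w' t / w t = Complex.log (w b) - Complex.log (w a) := by
    refine intervalIntegral.integral_eq_sub_of_hasDerivAt (f := fun t => Complex.log (w t))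
      (fun t ht => ?_) ?_
    · rw [uIcc_of_le hab] at ht
      exact (hd t ht).clog_real (hs t ht)
    · exact ContinuousOn.intervalIntegrable (by rwa [uIcc_of_le hab])
  have hint : IntervalIntegrable (fun t => w' t / w t) volume a b :=
    ContinuousOn.intervalIntegrable (by rwa [uIcc_of_le hab])
  have h2 : ∫ t in a..b, (w' t / w t).im = (∫ t in a..b, w' t / w t).im := by
    have := Complex.imCLM.intervalIntegral_comp_comm hint
    simpa using this
  rw [h2, h1, Complex.sub_im, Complex.log_im, Complex.log_im]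
  have h3 : 0 ≤ (w b).arg := Complex.arg_nonneg_iff.2 (hp b (right_mem_Icc.2 hab)).le
  have h4 : 0 ≤ (w a).arg := Complex.arg_nonneg_iff.2 (hp a (left_mem_Icc.2 hab)).le
  have h5 := Complex.arg_le_pi (w a)
  have h6 := Complex.arg_le_pi (w b)
  rw [abs_le]
  constructor <;> linarith

/-- no point of the curve is on the line -/
lemma arg_closed {w w' : ℝ → ℂ} {a b : ℝ} (hab : a ≤ b)
    (hd : ∀ t ∈ Icc a b, HasDerivAt w (w' t) t) (hc : ContinuousOn w' (Icc a b))
    (hp : ∀ t ∈ Icc a b, (w t).im ≠ 0) :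
    |∫ t in a..b, (w' t / w t).im| ≤ Real.pi := by
  have hcw : ContinuousOn w (Icc a b) := fun t ht => (hd t ht).continuousAt.continuousWithinAt
  have hci : ContinuousOn (fun t => (w t).im) (Icc a b) := Complex.continuous_im.comp_continuousOn hcw
  have hsign : (∀ t ∈ Icc a b, 0 < (w t).im) ∨ ∀ t ∈ Icc a b, (w t).im < 0 := by
    by_contra hcon
    push Not at hcon
    obtain ⟨⟨s, hs, hs'⟩, t, ht, ht'⟩ := hcon
    have hpre : IsPreconnected (Icc a b) := isPreconnected_Icc
    obtain ⟨x, hx, hx'⟩ := hpre.intermediate_value hs ht hci ⟨hs', ht'⟩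
    exact hp x hx hx'
  rcases hsign with h | h
  · exact arg_upper hab hd hc h
  · have h1 := arg_upper (w := fun t => -w t) (w' := fun t => -w' t) hab
      (fun t ht => (hd t ht).neg) hc.neg (fun t ht => by
        have := h t ht
        rw [Complex.neg_im]; linarith)
    have h2 : (fun t => (-w' t / -w t).im) = fun t => (w' t / w t).im := by
      funext t
      rw [neg_div_neg_eq]
    rwa [h2] at h1

/-- no interior point of the curve is on the line -/
lemma arg_open {w w' : ℝ → ℂ} {a b : ℝ} (hab : a ≤ b)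
    (hd : ∀ t ∈ Icc a b, HasDerivAt w (w' t) t) (hc : ContinuousOn w' (Icc a b))
    (hne : ∀ t ∈ Icc a b, w t ≠ 0)
    (hp : ∀ t ∈ Ioo a b, (w t).im ≠ 0) :
    |∫ t in a..b, (w' t / w t).im| ≤ Real.pi := by
  rcases hab.eq_or_lt with rfl | hlt
  · simp [Real.pi_pos.le]
  have hcw : ContinuousOn w (Icc a b) := fun t ht => (hd t ht).continuousAt.continuousWithinAt
  have hcq : ContinuousOn (fun t => (w' t / w t).im) (Icc a b) :=
    Complex.continuous_im.comp_continuousOn (hc.div hcw hne)
  have hint : IntegrableOn (fun t => (w' t / w t).im) (Icc a b) := hcq.integrableOn_Icc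
  -- the left end
  have hA : ∀ b' ∈ Ioo a b, |∫ t in a..b', (w' t / w t).im| ≤ Real.pi := by
    intro b' hb'
    have hcont : ContinuousOn (fun x => ∫ t in x..b', (w' t / w t).im) (Icc a b') := by
      have h1 : ContinuousOn (fun x => ∫ t in b'..x, (w' t / w t).im) (uIcc a b') :=
        intervalIntegral.continuousOn_primitive_interval' (a := b') (by
          refine (intervalIntegrable_iff_integrableOn_Icc_of_le hb'.1.le).2 ?_
          exact hint.mono_set (Icc_subset_Icc le_rfl hb'.2.le)) right_mem_uIcc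
      rw [uIcc_of_le hb'.1.le] at h1
      refine h1.neg.congr fun x _ => ?_
      exact intervalIntegral.integral_symm _ _
    have hlim : Tendsto (fun x => |∫ t in x..b', (w' t / w t).im|) (𝓝[>] a)
        (𝓝 |∫ t in a..b', (w' t / w t).im|) := by
      have h2 : Tendsto (fun x => ∫ t in x..b', (w' t / w t).im) (𝓝[Icc a b'] a)
          (𝓝 (∫ t in a..b', (w' t / w t).im)) := hcont a (left_mem_Icc.2 hb'.1.le)
      have h3 : 𝓝[>] a ≤ 𝓝[Icc a b'] a := by
        rw [← nhdsWithin_Ioo_eq_nhdsGT hb'.1]
        exact nhdsWithin_mono _ Ioo_subset_Icc_self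
      exact (h2.mono_left h3).abs
    refine le_of_tendsto hlim ?_
    have : ∀ᶠ x in 𝓝[>] a, x ∈ Ioo a b' := Ioo_mem_nhdsGT hb'.1
    filter_upwards [this] with x hx
    refine arg_closed hx.2.le (fun t ht => hd t ⟨hx.1.le.trans ht.1, ht.2.trans hb'.2.le⟩)
      (hc.mono (Icc_subset_Icc hx.1.le hb'.2.le)) fun t ht => hp t ⟨hx.1.trans_le ht.1, ht.2.trans_lt hb'.2⟩
  have hcont : ContinuousOn (fun x => ∫ t in a..x, (w' t / w t).im) (Icc a b) := by
    have h1 : ContinuousOn (fun x => ∫ t in a..x, (w' t / w t).im) (uIcc a b) :=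
      intervalIntegral.continuousOn_primitive_interval' (a := a) (by
        exact (intervalIntegrable_iff_integrableOn_Icc_of_le hab).2 hint) left_mem_uIcc
    rwa [uIcc_of_le hab] at h1
  have hlim : Tendsto (fun x => |∫ t in a..x, (w' t / w t).im|) (𝓝[<] b)
      (𝓝 |∫ t in a..b, (w' t / w t).im|) := by
    have h2 : Tendsto (fun x => ∫ t in a..x, (w' t / w t).im) (𝓝[Icc a b] b)
        (𝓝 (∫ t in a..b, (w' t / w t).im)) := hcont b (right_mem_Icc.2 hab)
    have h3 : 𝓝[<] b ≤ 𝓝[Icc a b] b := by
      rw [← nhdsWithin_Ioo_eq_nhdsLT hlt]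
      exact nhdsWithin_mono _ Ioo_subset_Icc_self
    exact (h2.mono_left h3).abs
  refine le_of_tendsto hlim ?_
  have : ∀ᶠ x in 𝓝[<] b, x ∈ Ioo a b := Ioo_mem_nhdsLT hlt
  filter_upwards [this] with x hx
  exact hA x hx

/-- **the change of the argument is at most `π (n + 1)` if `n` interior points are on the line** -/
theorem arg_bound {w w' : ℝ → ℂ} (n : ℕ) : ∀ {a b : ℝ}, a ≤ b →
    (∀ t ∈ Icc a b, HasDerivAt w (w' t) t) → ContinuousOn w' (Icc a b) →
    (∀ t ∈ Icc a b, w t ≠ 0) → {t | t ∈ Ioo a b ∧ (w t).im = 0}.encard ≤ n →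
    |∫ t in a..b, (w' t / w t).im| ≤ Real.pi * (n + 1) := by
  induction n using Nat.strong_induction_on with
  | _ n ih =>
    intro a b hab hd hc hne hS
    by_cases hemp : ∀ t ∈ Ioo a b, (w t).im ≠ 0
    · refine (arg_open hab hd hc hne hemp).trans ?_
      have := Real.pi_pos
      have hn : (0 : ℝ) ≤ n := n.cast_nonneg
      nlinarith
    · push Not at hemp
      obtain ⟨z, hz, hz0⟩ := hemp
      set S := {t | t ∈ Ioo a b ∧ (w t).im = 0} with hSdef
      set S1 := {t | t ∈ Ioo a z ∧ (w t).im = 0} with hS1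
      set S2 := {t | t ∈ Ioo z b ∧ (w t).im = 0} with hS2
      have hfin : S.Finite := Set.finite_of_encard_le_coe hS
      have s1 : S1 ⊆ S := fun t ht => ⟨⟨ht.1.1, ht.1.2.trans hz.2⟩, ht.2⟩
      have s2 : S2 ⊆ S := fun t ht => ⟨⟨hz.1.trans ht.1.1, ht.1.2⟩, ht.2⟩
      have hdis : Disjoint S1 S2 := by
        rw [Set.disjoint_left]
        intro t h1 h2
        exact absurd (h1.1.2.trans h2.1.1) (lt_irrefl _)
      have f1 : S1.Finite := hfin.subset s1
      have f2 : S2.Finite := hfin.subset s2
      have hz1 : z ∉ S1 ∪ S2 := by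
        rintro (h | h)
        · exact lt_irrefl _ h.1.2
        · exact lt_irrefl _ h.1.1
      have hsub : insert z (S1 ∪ S2) ⊆ S := by
        rintro t (rfl | h | h)
        · exact ⟨hz, hz0⟩
        · exact s1 h
        · exact s2 h
      have hcard : S1.ncard + S2.ncard + 1 ≤ n := by
        have h1 := Set.ncard_le_ncard hsub hfin
        rw [Set.ncard_insert_of_notMem hz1 (f1.union f2), Set.ncard_union_eq hdis f1 f2] at h1
        have h2 : S.ncard ≤ n := by
          rw [← hfin.cast_ncard_eq] at hS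
          exact_mod_cast hS
        omega
      have hint : IntegrableOn (fun t => (w' t / w t).im) (Icc a b) := by
        have hcw : ContinuousOn w (Icc a b) := fun t ht =>
          (hd t ht).continuousAt.continuousWithinAt
        have hcq : ContinuousOn (fun t => (w' t / w t).im) (Icc a b) :=
          Complex.continuous_im.comp_continuousOn (hc.div hcw hne)
        exact hcq.integrableOn_Icc
      have i1 : IntervalIntegrable (fun t => (w' t / w t).im) volume a z :=
        (intervalIntegrable_iff_integrableOn_Icc_of_le hz.1.le).2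
          (hint.mono_set (Icc_subset_Icc le_rfl hz.2.le))
      have i2 : IntervalIntegrable (fun t => (w' t / w t).im) volume z b :=
        (intervalIntegrable_iff_integrableOn_Icc_of_le hz.2.le).2
          (hint.mono_set (Icc_subset_Icc hz.1.le le_rfl))
      rw [← intervalIntegral.integral_add_adjacent_intervals i1 i2]
      have g1 := ih S1.ncard (by omega) hz.1.le (fun t ht => hd t ⟨ht.1, ht.2.trans hz.2.le⟩)
        (hc.mono (Icc_subset_Icc le_rfl hz.2.le)) (fun t ht => hne t ⟨ht.1, ht.2.trans hz.2.le⟩)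
        (by rw [f1.cast_ncard_eq])
      have g2 := ih S2.ncard (by omega) hz.2.le (fun t ht => hd t ⟨hz.1.le.trans ht.1, ht.2⟩)
        (hc.mono (Icc_subset_Icc hz.1.le le_rfl)) (fun t ht => hne t ⟨hz.1.le.trans ht.1, ht.2⟩)
        (by rw [f2.cast_ncard_eq])
      refine (abs_add_le _ _).trans ((add_le_add g1 g2).trans ?_)
      have hcard' : (S1.ncard : ℝ) + S2.ncard + 1 ≤ n := by exact_mod_cast hcard
      have := Real.pi_pos
      nlinarith

end Pool.Agent.H779.LX
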