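import Mathlib

/-!
# Local integrability in the plane of `log ‖f‖` and of `f'/f`
-/

open MeasureTheory Set Filter Topology Metric

namespace Pool.Agent.H779.LX

lemma inv_norm_int (c : ℂ) (ρ : ℝ) :
    IntegrableOn (fun z : ℂ => ‖z - c‖⁻¹) (ball c ρ) volume := by
  have h0 : IntegrableOn (fun z : ℂ => (fun r : ℝ => r⁻¹) ‖z‖) (ball (0 : ℂ) ρ) volume := by
    rw [integrableOn_fun_norm_addHaar (volume : Measure ℂ) (f := fun r : ℝ => r⁻¹)]
    rw [Complex.finrank_real_complex]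
    have : IntegrableOn (fun _ : ℝ => (1 : ℝ)) (Ioo 0 ρ) volume := by
      rw [integrableOn_const_iff]
      right
      simp
    refine this.congr_fun (fun y hy => ?_) measurableSet_Ioo
    have : y ≠ 0 := hy.1.ne'
    simp only [smul_eq_mul]
    field_simp
    norm_num
  have h1 : Integrable ((ball (0 : ℂ) ρ).indicator (fun z : ℂ => ‖z‖⁻¹)) volume :=
    (integrable_indicator_iff measurableSet_ball).2 h0
  have h2 := h1.comp_sub_right c
  rw [← integrable_indicator_iff measurableSet_ball]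
  refine h2.congr (Eventually.of_forall fun z => ?_)
  simp only [indicator, mem_ball, dist_eq_norm, sub_zero]

/-- the size of `log ‖f‖` and of `f'/f` near a point -/
lemma near {f : ℂ → ℂ} {c : ℂ} (hf : AnalyticAt ℂ f c) (h0 : ¬∀ᶠ z in 𝓝 c, f z = 0) :
    ∃ ρ > 0, ∃ C : ℝ, 0 ≤ C ∧ ∀ z ∈ ball c ρ, AnalyticAt ℂ f z ∧ (z ≠ c → f z ≠ 0 ∧
      |Real.log ‖f z‖| ≤ C * (‖z - c‖⁻¹ + 1) ∧ ‖deriv f z / f z‖ ≤ C * (‖z - c‖⁻¹ + 1)) := by
  obtain ⟨m, g, hg, hg0, hfg⟩ := hf.exists_eventuallyEq_pow_smul_nonzero_iff.2 h0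
  have hgc : ContinuousAt g c := hg.continuousAt
  have hlog : ContinuousAt (fun z => Real.log ‖g z‖) c :=
    (hgc.norm).log (norm_ne_zero_iff.2 hg0)
  have hq : ContinuousAt (fun z => deriv g z / g z) c :=
    hg.deriv.continuousAt.div hgc hg0
  have e1 : ∀ᶠ z in 𝓝 c, |Real.log ‖g z‖| < |Real.log ‖g c‖| + 1 :=
    hlog.abs.eventually_lt_const (by linarith)
  have e2 : ∀ᶠ z in 𝓝 c, ‖deriv g z / g z‖ < ‖deriv g c / g c‖ + 1 :=
    hq.norm.eventually_lt_const (by linarith)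
  have e3 : ∀ᶠ z in 𝓝 c, g z ≠ 0 := hgc.eventually_ne hg0
  have e4 : ∀ᶠ z in 𝓝 c, AnalyticAt ℂ g z := hg.eventually_analyticAt
  have e5 : ∀ᶠ z in 𝓝 c, AnalyticAt ℂ f z := hf.eventually_analyticAt
  have e6 : ∀ᶠ z in 𝓝 c, f =ᶠ[𝓝 z] fun z => (z - c) ^ m • g z := eventually_eventually_nhds.2 hfg
  have e7 : ∀ᶠ z in 𝓝 c, z ∈ ball c 1 := ball_mem_nhds c one_pos
  obtain ⟨ρ, hρ, hall⟩ := Metric.eventually_nhds_iff_ball.1
    (((((e1.and e2).and e3).and e4).and e5).and (e6.and e7))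
  refine ⟨ρ, hρ, m + |Real.log ‖g c‖| + ‖deriv g c / g c‖ + 1, by positivity, fun z hz => ?_⟩
  obtain ⟨⟨⟨⟨⟨h1, h2⟩, h3⟩, h4⟩, h5⟩, h6, h7⟩ := hall z hz
  refine ⟨h5, fun hzc => ?_⟩
  have hsub : z - c ≠ 0 := sub_ne_zero.2 hzc
  have hpos : 0 < ‖z - c‖ := norm_pos_iff.2 hsub
  have hlt1 : ‖z - c‖ < 1 := by rw [mem_ball, dist_eq_norm] at h7; exact h7
  have hval : f z = (z - c) ^ m * g z := by
    have := h6.eq_of_nhds
    simpa using this
  have hinv : 1 ≤ ‖z - c‖⁻¹ := (one_le_inv₀ hpos).2 hlt1.le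
  have hm : (0 : ℝ) ≤ m := m.cast_nonneg
  refine ⟨?_, ?_, ?_⟩
  · rw [hval]
    exact mul_ne_zero (pow_ne_zero _ hsub) h3
  · rw [hval, norm_mul, norm_pow, Real.log_mul (pow_pos hpos m).ne' (norm_ne_zero_iff.2 h3),
      Real.log_pow]
    have h8 : |Real.log ‖z - c‖| ≤ ‖z - c‖⁻¹ := by
      rw [abs_of_nonpos (Real.log_nonpos hpos.le hlt1.le)]
      have := Real.one_sub_inv_le_log_of_pos hpos
      linarith
    calc |m * Real.log ‖z - c‖ + Real.log ‖g z‖|
        ≤ |m * Real.log ‖z - c‖| + |Real.log ‖g z‖| := abs_add_le _ _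
      _ ≤ m * ‖z - c‖⁻¹ + (|Real.log ‖g c‖| + 1) := by
          rw [abs_mul, abs_of_nonneg hm]
          gcongr
      _ ≤ _ := by
          have h9 : 0 ≤ |Real.log ‖g c‖| := abs_nonneg _
          have h10 : 0 ≤ ‖deriv g c / g c‖ := norm_nonneg _
          nlinarith [inv_pos.2 hpos]
  · have hd : deriv f z = m * (z - c) ^ (m - 1) * g z + (z - c) ^ m * deriv g z := by
      rw [h6.deriv_eq]
      have hd1 : HasDerivAt (fun z => (z - c) ^ m) (m * (z - c) ^ (m - 1) * 1) z :=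
        ((hasDerivAt_id z).sub_const c).pow m
      have hd2 : HasDerivAt g (deriv g z) z := h4.differentiableAt.hasDerivAt
      have h12 := (hd1.mul hd2).deriv
      rw [mul_one] at h12
      exact h12
    have hq : deriv f z / f z = m / (z - c) + deriv g z / g z := by
      rw [hd, hval]
      rcases Nat.eq_zero_or_pos m with rfl | hmp
      · simp
      · obtain ⟨k, rfl⟩ : ∃ k, m = k + 1 := ⟨m - 1, by omega⟩
        simp only [Nat.add_sub_cancel]
        field_simp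
        ring
    rw [hq]
    calc ‖(m : ℂ) / (z - c) + deriv g z / g z‖ ≤ ‖(m : ℂ) / (z - c)‖ + ‖deriv g z / g z‖ :=
          norm_add_le _ _
      _ ≤ m * ‖z - c‖⁻¹ + (‖deriv g c / g c‖ + 1) := by
          rw [norm_div, Complex.norm_natCast, div_eq_mul_inv]
          gcongr
      _ ≤ _ := by
          have h9 : 0 ≤ |Real.log ‖g c‖| := abs_nonneg _
          have h10 : 0 ≤ ‖deriv g c / g c‖ := norm_nonneg _
          nlinarith [inv_pos.2 hpos]

lemma int_at {E : Type*} [NormedAddCommGroup E] {F : ℂ → E} {c : ℂ} {ρ C : ℝ} (hρ : 0 < ρ)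
    (hc : ContinuousOn F (ball c ρ \ {c}))
    (hb : ∀ z ∈ ball c ρ, z ≠ c → ‖F z‖ ≤ C * (‖z - c‖⁻¹ + 1)) :
    IntegrableAtFilter F (𝓝 c) volume := by
  refine ⟨ball c ρ, ball_mem_nhds c hρ, ?_⟩
  have hms : MeasurableSet (ball c ρ \ {c}) := measurableSet_ball.diff (measurableSet_singleton c)
  have h1 : IntegrableOn (fun z : ℂ => C * (‖z - c‖⁻¹ + 1)) (ball c ρ) volume := by
    refine Integrable.const_mul ?_ C
    refine (inv_norm_int c ρ).add ?_
    rw [integrableOn_const_iff]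
    right
    exact measure_ball_lt_top
  have h2 : IntegrableOn F (ball c ρ \ {c}) volume := by
    refine Integrable.mono' (h1.mono_set sdiff_subset) (hc.aestronglyMeasurable hms) ?_
    refine (ae_restrict_iff' hms).2 (Eventually.of_forall fun z hz => hb z hz.1 hz.2)
  have h3 : (ball c ρ \ {c} : Set ℂ) =ᵐ[volume] ball c ρ := by
    refine sdiff_null_ae_eq_self ?_
    simp
  exact (integrableOn_congr_set_ae h3).1 h2

lemma log_int_at {f : ℂ → ℂ} {c : ℂ} (hf : AnalyticAt ℂ f c) (h0 : ¬∀ᶠ z in 𝓝 c, f z = 0) :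
    IntegrableAtFilter (fun z => Real.log ‖f z‖) (𝓝 c) volume := by
  obtain ⟨ρ, hρ, C, -, h⟩ := near hf h0
  refine int_at hρ (C := C) (fun z hz => ?_) fun z hz hzc => ((h z hz).2 hzc).2.1
  exact (((h z hz.1).1.continuousAt.norm).log
    (norm_ne_zero_iff.2 ((h z hz.1).2 hz.2).1)).continuousWithinAt

lemma div_int_at {f : ℂ → ℂ} {c : ℂ} (hf : AnalyticAt ℂ f c) (h0 : ¬∀ᶠ z in 𝓝 c, f z = 0) :
    IntegrableAtFilter (fun z => deriv f z / f z) (𝓝 c) volume := by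
  obtain ⟨ρ, hρ, C, -, h⟩ := near hf h0
  refine int_at hρ (C := C) (fun z hz => ?_) fun z hz hzc => ((h z hz).2 hzc).2.2
  exact ((h z hz.1).1.deriv.continuousAt.div (h z hz.1).1.continuousAt
    ((h z hz.1).2 hz.2).1).continuousWithinAt

lemma log_int_on {f : ℂ → ℂ} {K : Set ℂ} (hK : IsCompact K) (hf : ∀ z ∈ K, AnalyticAt ℂ f z)
    (h0 : ∀ c ∈ K, ¬∀ᶠ z in 𝓝 c, f z = 0) :
    IntegrableOn (fun z => Real.log ‖f z‖) K volume := by
  refine LocallyIntegrableOn.integrableOn_isCompact (fun z hz => ?_) hK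
  exact (log_int_at (hf z hz) (h0 z hz)).filter_mono nhdsWithin_le_nhds

lemma div_int_on {f : ℂ → ℂ} {K : Set ℂ} (hK : IsCompact K) (hf : ∀ z ∈ K, AnalyticAt ℂ f z)
    (h0 : ∀ c ∈ K, ¬∀ᶠ z in 𝓝 c, f z = 0) :
    IntegrableOn (fun z => deriv f z / f z) K volume := by
  refine LocallyIntegrableOn.integrableOn_isCompact (fun z hz => ?_) hK
  exact (div_int_at (hf z hz) (h0 z hz)).filter_mono nhdsWithin_le_nhds

end Pool.Agent.H779.LX
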