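import Mathlib
import Pool.Agent.H779.LX.Loc

/-!
# The integral of `log ‖f‖` over the vertical sides of a rectangle
-/

open MeasureTheory Set Filter Topology Metric

namespace Pool.Agent.H779.LX

/-- the point `s + i t` -/
noncomputable def vp (s t : ℝ) : ℂ := s + t * Complex.I

lemma vp_re (s t : ℝ) : (vp s t).re = s := by simp [vp]
lemma vp_im (s t : ℝ) : (vp s t).im = t := by simp [vp]

lemma vp_mem {α β a b s t : ℝ} : vp s t ∈ Icc α β ×ℂ Icc a b ↔ s ∈ Icc α β ∧ t ∈ Icc a b := by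
  rw [Complex.mem_reProdIm, vp_re, vp_im]

lemma rect_compact (α β a b : ℝ) : IsCompact (Icc α β ×ℂ Icc a b) :=
  isCompact_Icc.reProdIm isCompact_Icc

/-- the zeros in a compact set are finite in number -/
lemma zeros_finite {f : ℂ → ℂ} {K : Set ℂ} (hK : IsCompact K) (hf : ∀ z ∈ K, AnalyticAt ℂ f z)
    (h0 : ∀ c ∈ K, ¬∀ᶠ z in 𝓝 c, f z = 0) : {z | z ∈ K ∧ f z = 0}.Finite := by
  have h := hK.induction_on (p := fun S => {z | z ∈ S ∧ f z = 0}.Finite) (by simp)
    (fun S T hST hT => hT.subset fun z hz => ⟨hST hz.1, hz.2⟩)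
    (fun S T hS hT => (hS.union hT).subset fun z hz => by
      rcases hz.1 with h | h
      · exact Or.inl ⟨h, hz.2⟩
      · exact Or.inr ⟨h, hz.2⟩)
    (fun c hc => by
      obtain ⟨ρ, hρ, C, -, h⟩ := near (hf c hc) (h0 c hc)
      refine ⟨ball c ρ, mem_nhdsWithin_of_mem_nhds (ball_mem_nhds c hρ), ?_⟩
      refine (finite_singleton c).subset fun z hz => ?_
      by_contra hzc
      exact ((h z hz.1).2 hzc).1 hz.2)
  exact h

/-- the derivative of `log ‖w‖` -/
lemma log_norm_deriv {w : ℝ → ℂ} {w' : ℂ} {x : ℝ} (h : HasDerivAt w w' x) (h0 : w x ≠ 0) :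
    HasDerivAt (fun x => Real.log ‖w x‖) (w' / w x).re x := by
  have h1 : HasDerivAt (fun x => ‖w x‖ ^ 2) (2 * inner ℝ (w x) w') x := h.norm_sq
  have h2 := h1.log (pow_ne_zero 2 (norm_ne_zero_iff.2 h0))
  have h3 : (fun x => Real.log ‖w x‖) = fun x => (1 / 2) * Real.log (‖w x‖ ^ 2) := by
    funext y
    rw [Real.log_pow]
    push_cast
    ring
  rw [h3]
  have h4 := h2.const_mul (1 / 2 : ℝ)
  refine h4.congr_deriv ?_
  rw [Complex.inner]
  have hw : ‖w x‖ ^ 2 = Complex.normSq (w x) := (Complex.normSq_eq_norm_sq _).symm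
  rw [Complex.div_re, hw, Complex.mul_re, Complex.conj_re, Complex.conj_im]
  have h5 : Complex.normSq (w x) ≠ 0 := by rwa [Ne, Complex.normSq_eq_zero]
  field_simp
  ring

section
variable {f : ℂ → ℂ} {α β a b : ℝ}

lemma log_row (hf : ∀ z ∈ Icc α β ×ℂ Icc a b, AnalyticAt ℂ f z) (hαβ : α ≤ β) {t : ℝ}
    (ht : t ∈ Icc a b) (h0 : ∀ s ∈ Icc α β, f (vp s t) ≠ 0) :
    ∫ s in α..β, (deriv f (vp s t) / f (vp s t)).re =
      Real.log ‖f (vp β t)‖ - Real.log ‖f (vp α t)‖ := by
  have hvp : ∀ s : ℝ, HasDerivAt (fun s : ℝ => vp s t) 1 s := fun s => by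
    have : HasDerivAt (fun s : ℝ => (s : ℂ)) 1 s := Complex.ofRealCLM.hasDerivAt
    simpa [vp] using this.add_const (t * Complex.I)
  refine intervalIntegral.integral_eq_sub_of_hasDerivAt
    (f := fun s => Real.log ‖f (vp s t)‖) (fun s hs => ?_) ?_
  · rw [uIcc_of_le hαβ] at hs
    have h1 : HasDerivAt f (deriv f (vp s t)) (vp s t) :=
      (hf _ (vp_mem.2 ⟨hs, ht⟩)).differentiableAt.hasDerivAt
    have h2 := h1.comp s (hvp s)
    rw [mul_one] at h2
    exact log_norm_deriv h2 (h0 s hs)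
  · refine ContinuousOn.intervalIntegrable ?_
    rw [uIcc_of_le hαβ]
    intro s hs
    have h1 : ContinuousAt (fun s => vp s t) s := (hvp s).continuousAt
    have h2 : ContinuousAt (fun z => deriv f z / f z) (vp s t) :=
      (hf _ (vp_mem.2 ⟨hs, ht⟩)).deriv.continuousAt.div
        (hf _ (vp_mem.2 ⟨hs, ht⟩)).continuousAt (h0 s hs)
    exact (Complex.continuous_re.continuousAt.comp (h2.comp (f := fun s : ℝ => vp s t) h1)).continuousWithinAt

lemma prod_int {E : Type*} [NormedAddCommGroup E] {F : ℂ → E}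
    (h : IntegrableOn F (Icc α β ×ℂ Icc a b) volume) :
    Integrable (fun p : ℝ × ℝ => F (vp p.1 p.2))
      ((volume.restrict (Icc α β)).prod (volume.restrict (Icc a b))) := by
  have h1 := (Complex.volume_preserving_equiv_real_prod.symm).integrableOn_comp_preimage
    Complex.measurableEquivRealProd.symm.measurableEmbedding (f := F) (s := Icc α β ×ℂ Icc a b)
  have h2 : Complex.measurableEquivRealProd.symm ⁻¹' (Icc α β ×ℂ Icc a b) = Icc α β ×ˢ Icc a b := by
    ext p
    rw [mem_preimage, Complex.mem_reProdIm, mem_prod]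
    rfl
  rw [h2] at h1
  have h3 := h1.2 h
  rw [Measure.prod_restrict]
  refine h3.congr (Eventually.of_forall fun p => ?_)
  have : Complex.measurableEquivRealProd.symm p = vp p.1 p.2 := by
    apply Complex.ext
    · rw [vp_re]; rfl
    · rw [vp_im]; rfl
  simp only [Function.comp_apply, this]

/-- **the vertical sides of a rectangle** -/
theorem rect_bound (hαβ : α ≤ β) (hab : a ≤ b)
    (hf : ∀ z ∈ Icc α β ×ℂ Icc a b, AnalyticAt ℂ f z)
    (h0 : ∀ c ∈ Icc α β ×ℂ Icc a b, ¬∀ᶠ z in 𝓝 c, f z = 0) {N : ℝ → ENNReal}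
    (hN : ∀ s ∈ Ioo α β, (∀ t ∈ Icc a b, f (vp s t) ≠ 0) →
      ENNReal.ofReal |∫ t in a..b, (deriv f (vp s t) / f (vp s t)).re| ≤ N s) :
    ENNReal.ofReal |(∫ t in a..b, Real.log ‖f (vp β t)‖) - ∫ t in a..b, Real.log ‖f (vp α t)‖| ≤
      ∫⁻ s in Ioo α β, N s := by
  have hK := rect_compact α β a b
  have hfin := zeros_finite hK hf h0
  have hG := prod_int (div_int_on hK hf h0)
  have hGr : Integrable (fun p : ℝ × ℝ => (deriv f (vp p.1 p.2) / f (vp p.1 p.2)).re)
      ((volume.restrict (Icc α β)).prod (volume.restrict (Icc a b))) := hG.re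
  -- the exchange of the order of integration
  have hswap : (∫ t in Icc a b, ∫ s in Icc α β, (deriv f (vp s t) / f (vp s t)).re) =
      ∫ s in Icc α β, ∫ t in Icc a b, (deriv f (vp s t) / f (vp s t)).re :=
    (integral_integral_swap (f := fun s t => (deriv f (vp s t) / f (vp s t)).re) hGr).symm
  -- the left side
  have hae : ∀ᵐ t ∂(volume.restrict (Icc a b)),
      (∫ s in Icc α β, (deriv f (vp s t) / f (vp s t)).re) =
        Real.log ‖f (vp β t)‖ - Real.log ‖f (vp α t)‖ := by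
    have hbad : volume (Complex.im '' {z | z ∈ Icc α β ×ℂ Icc a b ∧ f z = 0}) = 0 :=
      (hfin.image _).measure_zero _
    rw [ae_restrict_iff' measurableSet_Icc]
    have h1 : ∀ᵐ t : ℝ, t ∉ Complex.im '' {z | z ∈ Icc α β ×ℂ Icc a b ∧ f z = 0} :=
      measure_eq_zero_iff_ae_notMem.1 hbad
    filter_upwards [h1] with t ht1 ht
    rw [← log_row hf hαβ ht (fun s hs hs0 => ht1 ⟨vp s t, ⟨vp_mem.2 ⟨hs, ht⟩, hs0⟩, vp_im s t⟩),
      intervalIntegral.integral_of_le hαβ, integral_Icc_eq_integral_Ioc]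
  have hlogint : ∀ s ∈ Icc α β, IntervalIntegrable (fun t => Real.log ‖f (vp s t)‖) volume a b := by
    intro s hs
    have hmer : MeromorphicOn (fun t : ℝ => f (vp s t)) (uIcc a b) := by
      intro t ht
      rw [uIcc_of_le hab] at ht
      have h1 : AnalyticAt ℝ f (vp s t) := (hf _ (vp_mem.2 ⟨hs, ht⟩)).restrictScalars
      have h2 : AnalyticAt ℝ (fun t : ℝ => vp s t) t := by
        unfold vp
        exact analyticAt_const.add
          ((Complex.ofRealCLM.analyticAt t).mul analyticAt_const)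
      exact (h1.comp h2).meromorphicAt
    exact hmer.intervalIntegrable_log_norm
  have hL : (∫ t in a..b, Real.log ‖f (vp β t)‖) - ∫ t in a..b, Real.log ‖f (vp α t)‖ =
      ∫ s in Icc α β, ∫ t in Icc a b, (deriv f (vp s t) / f (vp s t)).re := by
    rw [← hswap, integral_congr_ae hae,
      ← intervalIntegral.integral_sub (hlogint β (right_mem_Icc.2 hαβ))
        (hlogint α (left_mem_Icc.2 hαβ)), intervalIntegral.integral_of_le hab,
      integral_Icc_eq_integral_Ioc]
  rw [hL]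
  -- the bound
  have h1 : ENNReal.ofReal |∫ s in Icc α β, ∫ t in Icc a b, (deriv f (vp s t) / f (vp s t)).re| ≤
      ∫⁻ s in Icc α β, ENNReal.ofReal |∫ t in Icc a b, (deriv f (vp s t) / f (vp s t)).re| := by
    have h2 := enorm_integral_le_lintegral_enorm (μ := volume.restrict (Icc α β))
      (fun s => ∫ t in Icc a b, (deriv f (vp s t) / f (vp s t)).re)
    simpa only [Real.enorm_eq_ofReal_abs] using h2
  refine h1.trans ?_
  rw [← restrict_Ioo_eq_restrict_Icc]
  refine lintegral_mono_ae ?_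
  rw [ae_restrict_iff' measurableSet_Ioo]
  have hbad : volume (Complex.re '' {z | z ∈ Icc α β ×ℂ Icc a b ∧ f z = 0}) = 0 :=
    (hfin.image _).measure_zero _
  have h3 : ∀ᵐ s : ℝ, s ∉ Complex.re '' {z | z ∈ Icc α β ×ℂ Icc a b ∧ f z = 0} :=
    measure_eq_zero_iff_ae_notMem.1 hbad
  filter_upwards [h3] with s hs1 hs
  have h4 := hN s hs fun t ht ht0 => hs1 ⟨vp s t, ⟨vp_mem.2 ⟨Ioo_subset_Icc_self hs, ht⟩, ht0⟩,
    vp_re s t⟩
  rwa [intervalIntegral.integral_of_le hab, ← integral_Icc_eq_integral_Ioc] at h4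

end

end Pool.Agent.H779.LX
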