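import Mathlib
import Pool.Agent.H779.LX.Rect
import Pool.Graph.R_seed8.Helper240.ZU.A1

/-!
# The size of `ζ` on the line `Re s = 1`
-/

open MeasureTheory Set Filter Topology Metric

namespace Pool.Agent.H779.LX

lemma one_line {t : ℝ} (ht : 2 ≤ t) : ‖riemannZeta (vp 1 t)‖ ≤ Real.log t + 5 := by
  set s := vp 1 t with hs
  have hre : s.re = 1 := vp_re _ _
  have him : s.im = t := vp_im _ _
  have hs1 : s ≠ 1 := by
    intro h
    have := congrArg Complex.im h
    rw [him, Complex.one_im] at this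
    linarith
  have hN2 : 2 ≤ ⌊t⌋₊ := Nat.le_floor (by simpa using ht)
  set N := ⌊t⌋₊ with hN
  have hN0 : (0 : ℝ) < N := by exact_mod_cast (by omega : 0 < N)
  have hNt : (N : ℝ) ≤ t := Nat.floor_le (by linarith)
  have hNt1 : t - 1 < N := Nat.sub_one_lt_floor t
  rw [ZU.J_a1.zeta_formula N (by omega) s (by rw [hre]; norm_num) hs1]
  have b1 : ‖ZU.DN N s‖ ≤ 1 + Real.log t := by
    unfold ZU.DN
    refine (norm_sum_le _ _).trans ?_
    have h1 : ∑ n ∈ Finset.Icc 1 N, ‖(n : ℂ) ^ (-s)‖ = (harmonic N : ℝ) := by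
      rw [harmonic_eq_sum_Icc]
      push_cast
      refine Finset.sum_congr rfl fun n hn => ?_
      have hn0 : 0 < n := by
        have := (Finset.mem_Icc.1 hn).1
        omega
      rw [Complex.norm_natCast_cpow_of_pos hn0, Complex.neg_re, hre, Real.rpow_neg_one]
    rw [h1]
    refine (harmonic_le_one_add_log N).trans ?_
    gcongr
  have b2 : ‖(N : ℂ) ^ (1 - s) / (s - 1)‖ ≤ 1 / 2 := by
    rw [norm_div, Complex.norm_natCast_cpow_of_pos (by omega), Complex.sub_re, hre, Complex.one_re,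
      sub_self, Real.rpow_zero]
    have h1 : t ≤ ‖s - 1‖ := by
      have := Complex.abs_im_le_norm (s - 1)
      rw [Complex.sub_im, him, Complex.one_im, sub_zero] at this
      exact (le_abs_self t).trans this
    exact one_div_le_one_div_of_le (by norm_num) (ht.trans h1)
  have b3 : ‖s * ∫ u in Ioi (N : ℝ), ((Int.fract u : ℝ) : ℂ) * (u : ℂ) ^ (-s - 1)‖ ≤ 3 := by
    rw [norm_mul]
    have h1 : ‖s‖ ≤ 1 + t := by
      have := Complex.norm_le_abs_re_add_abs_im s
      rw [hre, him, abs_one, abs_of_pos (by linarith)] at this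
      exact this
    have h2 : ‖∫ u in Ioi (N : ℝ), ((Int.fract u : ℝ) : ℂ) * (u : ℂ) ^ (-s - 1)‖ ≤ 1 / N := by
      refine (norm_integral_le_integral_norm _).trans ?_
      have h3 : ∫ u in Ioi (N : ℝ), u ^ (-2 : ℝ) = 1 / N := by
        rw [integral_Ioi_rpow_of_lt (by norm_num) hN0]
        norm_num
        rw [Real.rpow_neg_one]
      rw [← h3]
      refine integral_mono_of_nonneg (Eventually.of_forall fun u => norm_nonneg _)
        (integrableOn_Ioi_rpow_of_lt (by norm_num) hN0) ?_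
      refine (ae_restrict_iff' measurableSet_Ioi).2 (Eventually.of_forall fun u hu => ?_)
      have hu0 : 0 < u := hN0.trans hu
      simp only [norm_mul]
      rw [Complex.norm_cpow_eq_rpow_re_of_pos hu0, Complex.norm_real, Real.norm_eq_abs,
        Int.abs_fract]
      have e : (-s - 1).re = -2 := by
        rw [Complex.sub_re, Complex.neg_re, hre, Complex.one_re]; norm_num
      rw [e]
      have := (Int.fract_lt_one u).le
      exact mul_le_of_le_one_left (Real.rpow_nonneg hu0.le _) this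
    calc ‖s‖ * ‖∫ u in Ioi (N : ℝ), ((Int.fract u : ℝ) : ℂ) * (u : ℂ) ^ (-s - 1)‖
        ≤ (1 + t) * (1 / N) := by gcongr
      _ ≤ 3 := by
          rw [mul_one_div, div_le_iff₀ hN0]
          have : (2 : ℝ) ≤ N := by exact_mod_cast hN2
          linarith
  calc ‖ZU.DN N s + (N : ℂ) ^ (1 - s) / (s - 1) -
        s * ∫ u in Ioi (N : ℝ), ((Int.fract u : ℝ) : ℂ) * (u : ℂ) ^ (-s - 1)‖
      ≤ ‖ZU.DN N s‖ + ‖(N : ℂ) ^ (1 - s) / (s - 1)‖ +
        ‖s * ∫ u in Ioi (N : ℝ), ((Int.fract u : ℝ) : ℂ) * (u : ℂ) ^ (-s - 1)‖ :=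
        (norm_sub_le _ _).trans (add_le_add_left (norm_add_le _ _) _)
    _ ≤ _ := by linarith

end Pool.Agent.H779.LX
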