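import Mathlib
import Pool.Agent.H779.LX.Rect

/-!
# Submean properties of `log ‖f‖` over circles, arcs and discs
-/

open MeasureTheory Set Filter Topology Metric Real

namespace Pool.Agent.H779.LX

lemma log_submean {f : ℂ → ℂ} {c : ℂ} {R : ℝ} (hR : 0 < R)
    (hf : AnalyticOnNhd ℂ f (closedBall c R)) (h0 : f c ≠ 0) :
    Real.log ‖f c‖ ≤ circleAverage (fun z => Real.log ‖f z‖) c R := by
  have hR' : |R| = R := abs_of_pos hR
  have h1 := AnalyticOnNhd.circleAverage_log_norm hR.ne' (by rw [hR']; exact hf) h0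
  have h2 : 0 ≤ ∑ᶠ u, (MeromorphicOn.divisor f (closedBall c |R|) u : ℝ) *
      Real.log (R * ‖c - u‖⁻¹) := by
    refine finsum_nonneg fun u => ?_
    by_cases hu : u ∈ closedBall c |R|
    · refine mul_nonneg ?_ ?_
      · have := MeromorphicOn.AnalyticOnNhd.divisor_nonneg (by rw [hR']; exact hf :
          AnalyticOnNhd ℂ f (closedBall c |R|)) u
        exact_mod_cast this
      · by_cases huc : u = c
        · simp [huc]
        · have hpos : 0 < ‖c - u‖ := by
            rw [norm_pos_iff, sub_ne_zero]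
            exact fun h => huc h.symm
          refine Real.log_nonneg ?_
          rw [hR', mem_closedBall, dist_comm, dist_eq_norm] at hu
          rw [← div_eq_mul_inv, le_div_iff₀ hpos, one_mul]
          exact hu
    · rw [Function.locallyFinsuppWithin.apply_eq_zero_of_notMem _ hu]
      simp
  linarith

lemma posLog_sub {f : ℂ → ℂ} {c : ℂ} {R : ℝ} (hR : 0 < R)
    (hf : AnalyticOnNhd ℂ f (closedBall c R)) :
    log⁺ ‖f c‖ ≤ circleAverage (fun z => log⁺ ‖f z‖) c R := by
  have hR' : |R| = R := abs_of_pos hR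
  have hm : MeromorphicOn f (sphere c |R|) := by
    rw [hR']
    exact (hf.mono sphere_subset_closedBall).meromorphicOn
  rw [posLog_apply, max_le_iff]
  constructor
  · exact circleAverage_nonneg_of_nonneg (fun x _ => posLog_nonneg)
  · by_cases h0 : f c = 0
    · rw [h0, norm_zero, log_zero]
      exact circleAverage_nonneg_of_nonneg (fun x _ => posLog_nonneg)
    · refine (log_submean hR hf h0).trans ?_
      exact circleAverage_mono hm.circleIntegrable_log_norm hm.circleIntegrable_posLog_norm
          (fun x _ => le_max_right _ _)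

/-- **smallness on an arc**: `‖f‖ ≤ e^a` on a circle and `‖f‖ ≤ e^{-b}` on the arc of half-width
`θ` about the leftmost point -/
theorem arc_small {f : ℂ → ℂ} {c : ℂ} {R a b θ : ℝ} (hR : 0 < R)
    (hf : AnalyticOnNhd ℂ f (closedBall c R)) (ha : 0 ≤ a + b) (hθ : 0 ≤ θ) (hθ' : θ ≤ π)
    (h1 : ∀ z ∈ sphere c R, ‖f z‖ ≤ Real.exp a)
    (h2 : ∀ φ : ℝ, |φ - π| ≤ θ → ‖f (circleMap c R φ)‖ ≤ Real.exp (-b)) :
    ‖f c‖ ≤ Real.exp (a - θ / π * (a + b)) := by
  have hpi := Real.pi_pos
  set g : ℂ → ℂ := fun z => (Real.exp b : ℂ) * f z with hg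
  have hga : AnalyticOnNhd ℂ g (closedBall c R) := fun z hz => analyticAt_const.mul (hf z hz)
  have hng : ∀ z, ‖g z‖ = Real.exp b * ‖f z‖ := fun z => by
    rw [hg]
    simp only [norm_mul, Complex.norm_real, Real.norm_eq_abs, Real.abs_exp]
  have h3 := posLog_sub hR hga
  have hR' : |R| = R := abs_of_pos hR
  have hcont : Continuous fun φ : ℝ => log⁺ ‖g (circleMap c R φ)‖ := by
    have h4 : Continuous fun φ : ℝ => g (circleMap c R φ) := by
      rw [continuous_iff_continuousAt]
      intro φ
      exact (hga _ (circleMap_mem_closedBall c hR.le φ)).continuousAt.comp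
        (continuous_circleMap c R).continuousAt
    exact continuous_posLog.comp h4.norm
  have hint : ∀ x y : ℝ, IntervalIntegrable (fun φ : ℝ => log⁺ ‖g (circleMap c R φ)‖) volume x y :=
    fun x y => hcont.intervalIntegrable x y
  have hbig : ∀ φ : ℝ, log⁺ ‖g (circleMap c R φ)‖ ≤ a + b := fun φ => by
    rw [posLog_apply, max_le_iff]
    refine ⟨ha, ?_⟩
    rcases eq_or_ne (‖g (circleMap c R φ)‖) 0 with h0 | h0
    · rw [h0, log_zero]; exact ha
    · rw [Real.log_le_iff_le_exp (lt_of_le_of_ne (norm_nonneg _) h0.symm), hng, add_comm,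
        Real.exp_add]
      exact mul_le_mul_of_nonneg_left (h1 _ (circleMap_mem_sphere c hR.le φ)) (Real.exp_pos _).le
  have hsm : ∀ φ : ℝ, |φ - π| ≤ θ → log⁺ ‖g (circleMap c R φ)‖ ≤ 0 := fun φ hφ => by
    rw [posLog_apply, max_le_iff]
    refine ⟨le_rfl, Real.log_nonpos (norm_nonneg _) ?_⟩
    rw [hng]
    calc Real.exp b * ‖f (circleMap c R φ)‖ ≤ Real.exp b * Real.exp (-b) :=
          mul_le_mul_of_nonneg_left (h2 φ hφ) (Real.exp_pos _).le
      _ = 1 := by rw [← Real.exp_add]; simp
  have h4 : circleAverage (fun z => log⁺ ‖g z‖) c R ≤ (1 - θ / π) * (a + b) := by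
    rw [circleAverage_def, smul_eq_mul,
      ← intervalIntegral.integral_add_adjacent_intervals (hint 0 (π - θ)) (hint _ (2 * π)),
      ← intervalIntegral.integral_add_adjacent_intervals (hint (π - θ) (π + θ)) (hint _ (2 * π))]
    have e1 : ∫ φ in (0 : ℝ)..(π - θ), log⁺ ‖g (circleMap c R φ)‖ ≤ (π - θ) * (a + b) := by
      have := intervalIntegral.integral_mono_on (by linarith : (0 : ℝ) ≤ π - θ) (hint _ _)
        (intervalIntegrable_const (c := a + b)) (fun φ _ => hbig φ)
      rw [intervalIntegral.integral_const, smul_eq_mul, sub_zero] at this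
      exact this
    have e2 : ∫ φ in (π - θ)..(π + θ), log⁺ ‖g (circleMap c R φ)‖ ≤ 0 := by
      have := intervalIntegral.integral_mono_on (by linarith : π - θ ≤ π + θ) (hint _ _)
        (intervalIntegrable_const (c := (0 : ℝ))) (fun φ hφ => hsm φ (by
          rw [abs_le]; constructor <;> linarith [hφ.1, hφ.2]))
      simpa using this
    have e3 : ∫ φ in (π + θ)..(2 * π), log⁺ ‖g (circleMap c R φ)‖ ≤ (π - θ) * (a + b) := by
      have := intervalIntegral.integral_mono_on (by linarith : π + θ ≤ 2 * π) (hint _ _)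
        (intervalIntegrable_const (c := a + b)) (fun φ _ => hbig φ)
      rw [intervalIntegral.integral_const, smul_eq_mul] at this
      have e : 2 * π - (π + θ) = π - θ := by ring
      rwa [e] at this
    have e4 : (1 - θ / π) * (a + b) = (2 * π)⁻¹ * ((π - θ) * (a + b) + (0 + (π - θ) * (a + b))) := by
      field_simp
      ring
    rw [e4]
    exact mul_le_mul_of_nonneg_left (add_le_add e1 (add_le_add e2 e3)) (by positivity)
  have h5 : Real.log ‖g c‖ ≤ (1 - θ / π) * (a + b) := by
    have := h3.trans h4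
    rw [posLog_apply] at this
    exact (le_max_right _ _).trans this
  rcases eq_or_ne (f c) 0 with h0 | h0
  · rw [h0, norm_zero]; exact (Real.exp_pos _).le
  · have hpos : 0 < ‖g c‖ := by
      rw [hng]; exact mul_pos (Real.exp_pos _) (norm_pos_iff.2 h0)
    rw [Real.log_le_iff_le_exp hpos, hng] at h5
    have h6 : ‖f c‖ ≤ Real.exp (-b) * Real.exp ((1 - θ / π) * (a + b)) := by
      have := mul_le_mul_of_nonneg_left h5 (Real.exp_pos (-b)).le
      rwa [← mul_assoc, ← Real.exp_add, neg_add_cancel, Real.exp_zero, one_mul] at this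
    rw [← Real.exp_add] at h6
    refine h6.trans (Real.exp_le_exp.2 (le_of_eq ?_))
    ring

/-- **submean property over a disc** -/
theorem area_submean {f : ℂ → ℂ} (hm : Measurable f) {c : ℂ} {r M : ℝ} (hr : 0 < r)
    (hf : AnalyticOnNhd ℂ f (closedBall c r)) (h0 : f c ≠ 0)
    (hM : ∀ z ∈ closedBall c r, Real.log ‖f z‖ ≤ M) :
    ∫⁻ z in ball c r, ENNReal.ofReal (M - Real.log ‖f z‖) ≤
      ENNReal.ofReal (π * r ^ 2 * (M - Real.log ‖f c‖)) := by
  have hpi := Real.pi_pos
  set g : ℂ → ENNReal := fun z => ENNReal.ofReal (M - Real.log ‖f z‖) with hg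
  have hgm : Measurable g := ENNReal.measurable_ofReal.comp
    (measurable_const.sub (Real.measurable_log.comp hm.norm))
  have hMc : 0 ≤ M - Real.log ‖f c‖ := by linarith [hM c (mem_closedBall_self hr.le)]
  -- circles
  have hcirc : ∀ ρ ∈ Ioo 0 r, ∫⁻ φ in Ioo (-π) π, g (circleMap c ρ φ) ≤
      ENNReal.ofReal (2 * π * (M - Real.log ‖f c‖)) := by
    intro ρ hρ
    have hρ' : |ρ| = ρ := abs_of_pos hρ.1
    have hfρ : AnalyticOnNhd ℂ f (closedBall c ρ) := hf.mono (closedBall_subset_closedBall hρ.2.le)
    have h1 := log_submean hρ.1 hfρ h0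
    have hci : CircleIntegrable (fun z => Real.log ‖f z‖) c ρ := by
      refine MeromorphicOn.circleIntegrable_log_norm ?_
      rw [hρ']
      exact (hfρ.mono sphere_subset_closedBall).meromorphicOn
    rw [circleAverage_eq_integral_add (-π), smul_eq_mul] at h1
    have e0 : (∫ θ in (0 : ℝ)..2 * π, Real.log ‖f (circleMap c ρ (θ + -π))‖) =
        ∫ θ in (-π)..π, Real.log ‖f (circleMap c ρ θ)‖ := by
      rw [intervalIntegral.integral_comp_add_right (fun θ => Real.log ‖f (circleMap c ρ θ)‖) (-π)]
      congr 1 <;> ring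
    rw [e0] at h1
    have hii : IntervalIntegrable (fun θ => Real.log ‖f (circleMap c ρ θ)‖) volume (-π) π := by
      have h2 : IntervalIntegrable (fun θ => Real.log ‖f (circleMap c ρ θ)‖) volume 0 (2 * π) := hci
      have hper : Function.Periodic (fun θ => Real.log ‖f (circleMap c ρ θ)‖) (2 * π) := fun θ => by
        simp only [periodic_circleMap c ρ θ]
      exact hper.intervalIntegrable₀ (by positivity) h2 _ _
    have hii2 : IntegrableOn (fun θ => M - Real.log ‖f (circleMap c ρ θ)‖) (Ioo (-π) π) volume := by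
      have h3 : IntervalIntegrable (fun θ => M - Real.log ‖f (circleMap c ρ θ)‖) volume (-π) π :=
        intervalIntegrable_const.sub hii
      rw [intervalIntegrable_iff_integrableOn_Ioo_of_le (by linarith)] at h3
      exact h3
    have hnn : ∀ᵐ θ ∂(volume.restrict (Ioo (-π) π)),
        (0 : ℝ) ≤ M - Real.log ‖f (circleMap c ρ θ)‖ := by
      refine Eventually.of_forall fun θ => ?_
      have h4 := hM _ (closedBall_subset_closedBall hρ.2.le (circleMap_mem_closedBall c hρ.1.le θ))
      linarith
    rw [hg]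
    simp only []
    rw [← ofReal_integral_eq_lintegral_ofReal hii2 hnn]
    refine ENNReal.ofReal_le_ofReal ?_
    have e1 : ∫ θ in Ioo (-π) π, (M - Real.log ‖f (circleMap c ρ θ)‖) =
        2 * π * M - ∫ θ in (-π)..π, Real.log ‖f (circleMap c ρ θ)‖ := by
      rw [← integral_Ioc_eq_integral_Ioo, ← intervalIntegral.integral_of_le (by linarith),
        intervalIntegral.integral_sub intervalIntegrable_const hii,
        intervalIntegral.integral_const, smul_eq_mul]
      ring
    rw [e1, mul_sub]
    have h5 : 2 * π * Real.log ‖f c‖ ≤ ∫ θ in (-π)..π, Real.log ‖f (circleMap c ρ θ)‖ := by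
      have := mul_le_mul_of_nonneg_left h1 (by positivity : 0 ≤ 2 * π)
      rwa [← mul_assoc, mul_inv_cancel₀ (by positivity), one_mul] at this
    linarith
  -- polar coordinates
  have h1 : ∫⁻ z in ball c r, g z = ∫⁻ z, (ball c r).indicator g (c + z) := by
    rw [← lintegral_indicator measurableSet_ball]
    exact (lintegral_add_left_eq_self _ c).symm
  rw [h1, ← Complex.lintegral_comp_polarCoord_symm, show (polarCoord.target : Set (ℝ × ℝ)) = Ioi (0 : ℝ) ×ˢ Ioo (-π) π from rfl,
    Measure.volume_eq_prod, ← Measure.prod_restrict, lintegral_prod]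
  · calc ∫⁻ ρ in Ioi (0 : ℝ), ∫⁻ φ in Ioo (-π) π, ENNReal.ofReal ρ •
          (ball c r).indicator g (c + Complex.polarCoord.symm (ρ, φ))
        ≤ ∫⁻ ρ in Ioi (0 : ℝ), (Ioo 0 r).indicator (fun ρ => ENNReal.ofReal ρ *
            ENNReal.ofReal (2 * π * (M - Real.log ‖f c‖))) ρ := by
          refine setLIntegral_mono' measurableSet_Ioi fun ρ hρ => ?_
          have hρ0 : (0 : ℝ) < ρ := hρ
          have hpt : ∀ φ : ℝ, c + Complex.polarCoord.symm (ρ, φ) = circleMap c ρ φ := fun φ => by
            rw [Complex.polarCoord_symm_apply, circleMap, Complex.exp_mul_I]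
            push_cast
            ring
          have hmem : ∀ φ : ℝ, circleMap c ρ φ ∈ ball c r ↔ ρ < r := fun φ => by
            have : circleMap c ρ φ ∈ sphere c ρ := circleMap_mem_sphere c hρ0.le φ
            rw [mem_ball, mem_sphere.1 this]
          by_cases hρr : ρ < r
          · have e2 : ∀ φ : ℝ, (ball c r).indicator g (c + Complex.polarCoord.symm (ρ, φ)) =
                g (circleMap c ρ φ) := fun φ => by
              rw [hpt, indicator_of_mem ((hmem φ).2 hρr)]
            simp only [e2, smul_eq_mul]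
            have hmm : ρ ∈ Ioo (0 : ℝ) r := ⟨hρ0, hρr⟩
            have hgc : Measurable fun φ : ℝ => g (circleMap c ρ φ) :=
              hgm.comp (continuous_circleMap c ρ).measurable
            rw [indicator_of_mem hmm, lintegral_const_mul _ hgc]
            exact mul_le_mul_right (hcirc ρ ⟨hρ0, hρr⟩) _
          · have e2 : ∀ φ : ℝ, (ball c r).indicator g (c + Complex.polarCoord.symm (ρ, φ)) = 0 :=
              fun φ => by
                rw [hpt, indicator_of_notMem fun h => hρr ((hmem φ).1 h)]
            simp only [e2, smul_zero, lintegral_zero, zero_le]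
      _ ≤ ∫⁻ ρ in Ioo 0 r, ENNReal.ofReal ρ * ENNReal.ofReal (2 * π * (M - Real.log ‖f c‖)) := by
          rw [lintegral_indicator measurableSet_Ioo]
          exact lintegral_mono' (Measure.restrict_mono_measure Measure.restrict_le_self _) le_rfl
      _ = ENNReal.ofReal (π * r ^ 2 * (M - Real.log ‖f c‖)) := by
          rw [lintegral_mul_const _ ENNReal.measurable_ofReal]
          have e3 : ∫⁻ ρ in Ioo 0 r, ENNReal.ofReal ρ = ENNReal.ofReal (r ^ 2 / 2) := by
            have i1 : IntegrableOn (fun ρ : ℝ => ρ) (Ioo 0 r) volume :=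
              (continuous_id.integrableOn_Icc (a := (0 : ℝ)) (b := r)).mono_set Ioo_subset_Icc_self
            have i2 : ∀ᵐ ρ : ℝ ∂(volume.restrict (Ioo 0 r)), (0 : ℝ) ≤ ρ :=
              (ae_restrict_iff' measurableSet_Ioo).2 (Eventually.of_forall fun ρ hρ => hρ.1.le)
            rw [← ofReal_integral_eq_lintegral_ofReal i1 i2,
              ← integral_Ioc_eq_integral_Ioo, ← intervalIntegral.integral_of_le hr.le, integral_id]
            congr 1
            ring
          rw [e3, ← ENNReal.ofReal_mul (by positivity)]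
          congr 1
          ring
  · refine Measurable.aemeasurable ?_
    refine (ENNReal.measurable_ofReal.comp measurable_fst).smul ?_
    refine (hgm.indicator measurableSet_ball).comp ?_
    have h2 : (fun a : ℝ × ℝ => c + Complex.polarCoord.symm a) = fun a : ℝ × ℝ =>
        c + a.1 * (Real.cos a.2 + Real.sin a.2 * Complex.I) := by
      funext a
      rw [Complex.polarCoord_symm_apply]
    rw [h2]
    fun_prop

end Pool.Agent.H779.LX
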