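import Mathlib
import Pool.Agent.H779.LX.Def
import Pool.Agent.H779.LX.Arg
import Pool.Agent.H779.LX.Rect
import Pool.Agent.H779.LX.Sub
import Pool.Agent.H779.LX.One

/-!
# A large value of `ζ` forces points on every line
-/

open MeasureTheory Set Filter Topology Metric

namespace Pool.Agent.H779.LX

lemma zeta_an {z : ℂ} (hz : z ≠ 1) : AnalyticAt ℂ riemannZeta z := by
  have h : DifferentiableOn ℂ riemannZeta {1}ᶜ := fun w hw =>
    (differentiableAt_riemannZeta hw).differentiableWithinAt
  exact h.analyticAt (isOpen_compl_singleton.mem_nhds hz)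

lemma zeta_not_zero {z : ℂ} (hz : z ≠ 1) : ¬∀ᶠ w in 𝓝 z, riemannZeta w = 0 := by
  intro h
  have h1 : AnalyticOnNhd ℂ riemannZeta {1}ᶜ := fun w hw => zeta_an hw
  have hpre : IsPreconnected ({1}ᶜ : Set ℂ) :=
    (isConnected_compl_singleton_of_one_lt_rank (by simp) (1 : ℂ)).isPreconnected
  have h2 := h1.eqOn_zero_of_preconnected_of_eventuallyEq_zero hpre hz h
  have h3 := h2 (show (2 : ℂ) ∈ ({1}ᶜ : Set ℂ) by simp)
  exact riemannZeta_ne_zero_of_one_lt_re (by simp : 1 < (2 : ℂ).re) (by simpa using h3)

lemma zeta_meas : Measurable riemannZeta := by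
  refine measurable_of_continuousOn_compl_singleton 1 fun z hz => ?_
  exact (zeta_an hz).continuousAt.continuousWithinAt

/-- one vertical segment -/
lemma seg_bound {s T r : ℝ} (hr : 0 ≤ r) (hT : r < T)
    (hz : ∀ t ∈ Icc (T - r) (T + r), riemannZeta (vp s t) ≠ 0) :
    ENNReal.ofReal |∫ t in (T - r)..(T + r), (deriv riemannZeta (vp s t) / riemannZeta (vp s t)).re| ≤
      ENNReal.ofReal Real.pi * (fewest s T r + 1) := by
  set J := ∫ t in (T - r)..(T + r), (deriv riemannZeta (vp s t) / riemannZeta (vp s t)).re with hJ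
  have key : ∀ u : {u : ℂ // ‖u‖ = 1}, ENNReal.ofReal |J| ≤
      ENNReal.ofReal Real.pi * (((onLine u s T r).encard : ENNReal) + 1) := by
    rintro ⟨u, hu⟩
    by_cases htop : (onLine u s T r).encard = ⊤
    · rw [htop]
      simp [ENNReal.mul_top, Real.pi_pos]
    · obtain ⟨n, hn⟩ := ENat.ne_top_iff_exists.1 htop
      have hne1 : ∀ t ∈ Icc (T - r) (T + r), vp s t ≠ 1 := fun t ht h => by
        have := congrArg Complex.im h
        rw [vp_im, Complex.one_im] at this
        linarith [ht.1]
      have hu0 : (starRingEnd ℂ) u ≠ 0 := by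
        intro h
        have h0 : u = 0 := by simpa using h
        rw [h0, norm_zero] at hu
        norm_num at hu
      have h1 := arg_bound (w := fun t : ℝ => (starRingEnd ℂ) u * riemannZeta (vp s t))
        (w' := fun t : ℝ => (starRingEnd ℂ) u * (deriv riemannZeta (vp s t) * Complex.I)) n
        (a := T - r) (b := T + r) (by linarith) (fun t ht => ?_) ?_ (fun t ht => ?_) ?_
      · have h2 : (fun t : ℝ => ((starRingEnd ℂ) u * (deriv riemannZeta (vp s t) * Complex.I) /
            ((starRingEnd ℂ) u * riemannZeta (vp s t))).im) =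
            fun t : ℝ => (deriv riemannZeta (vp s t) / riemannZeta (vp s t)).re := by
          funext t
          rw [mul_div_mul_left _ _ hu0, mul_div_right_comm]
          simp
        rw [h2] at h1
        rw [← hn]
        have h3 : ENNReal.ofReal |J| ≤ ENNReal.ofReal (Real.pi * (n + 1)) :=
          ENNReal.ofReal_le_ofReal h1
        refine h3.trans (le_of_eq ?_)
        rw [ENNReal.ofReal_mul Real.pi_pos.le, ENNReal.ofReal_add (by positivity) zero_le_one,
          ENNReal.ofReal_natCast, ENNReal.ofReal_one]
        simp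
      · have hd : HasDerivAt (fun t : ℝ => vp s t) Complex.I t := by
          have h4 : HasDerivAt (fun t : ℝ => (t : ℂ)) 1 t := Complex.ofRealCLM.hasDerivAt
          have := (h4.mul_const Complex.I).const_add (s : ℂ)
          simpa [vp] using this
        have h5 : HasDerivAt riemannZeta (deriv riemannZeta (vp s t)) (vp s t) :=
          (differentiableAt_riemannZeta (hne1 t ht)).hasDerivAt
        exact (h5.comp t hd).const_mul _
      · intro t ht
        have hd : ContinuousAt (fun t : ℝ => vp s t) t := by
          unfold vp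
          fun_prop
        have h5 : ContinuousAt (deriv riemannZeta) (vp s t) := (zeta_an (hne1 t ht)).deriv.continuousAt
        have h6 : ContinuousAt (fun t : ℝ => deriv riemannZeta (vp s t)) t :=
          h5.comp (f := fun t : ℝ => vp s t) hd
        exact ((h6.mul continuousAt_const).const_mul _).continuousWithinAt
      · exact mul_ne_zero hu0 (hz t ht)
      · rw [hn]
        refine Set.encard_le_encard ?_
        rintro t ⟨ht, ht0⟩
        refine ⟨?_, ((starRingEnd ℂ) u * riemannZeta (vp s t)).re, ?_⟩
        · rw [abs_le]; constructor <;> linarith [ht.1, ht.2]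
        · have h7 : (starRingEnd ℂ) u * riemannZeta (vp s t) =
              (((starRingEnd ℂ) u * riemannZeta (vp s t)).re : ℂ) := by
            apply Complex.ext
            · simp
            · rw [Complex.ofReal_im]; exact ht0
          have h8 : u * (starRingEnd ℂ) u = 1 := by
            rw [Complex.mul_conj, Complex.normSq_eq_norm_sq, hu]
            simp
          have h9 : riemannZeta (vp s t) = (starRingEnd ℂ) u * riemannZeta (vp s t) * u := by
            linear_combination (-(riemannZeta (vp s t))) * h8
          rw [← h7]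
          exact h9
  unfold fewest
  have hne : Nonempty {u : ℂ // ‖u‖ = 1} := ⟨⟨1, norm_one⟩⟩
  rw [ENNReal.iInf_add, ENNReal.mul_iInf_of_ne (by simp [Real.pi_pos]) ENNReal.ofReal_ne_top]
  exact le_iInf key

/-- the discs by vertical slices -/
lemma ball_slices {c : ℂ} {r : ℝ} {F : ℂ → ENNReal} (hF : Measurable F) :
    ∫⁻ z in ball c r, F z = ∫⁻ s in Ioo (c.re - r) (c.re + r),
      ∫⁻ t in Ioo (c.im - √(r ^ 2 - (s - c.re) ^ 2)) (c.im + √(r ^ 2 - (s - c.re) ^ 2)),
        F (vp s t) := by
  rw [← lintegral_indicator measurableSet_ball,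
    ← (Complex.volume_preserving_equiv_real_prod.symm).lintegral_comp_emb
      Complex.measurableEquivRealProd.symm.measurableEmbedding, Measure.volume_eq_prod,
    lintegral_prod]
  · rw [← lintegral_indicator measurableSet_Ioo]
    refine lintegral_congr fun s => ?_
    have hpt : ∀ t : ℝ, Complex.measurableEquivRealProd.symm (s, t) = vp s t := fun t => by
      apply Complex.ext
      · rw [vp_re]; rfl
      · rw [vp_im]; rfl
    have hmem : ∀ t : ℝ, vp s t ∈ ball c r ↔ (s - c.re) ^ 2 + (t - c.im) ^ 2 < r ^ 2 ∧ 0 < r :=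
      fun t => by
        rw [mem_ball, dist_eq_norm]
        have h1 : ‖vp s t - c‖ ^ 2 = (s - c.re) ^ 2 + (t - c.im) ^ 2 := by
          rw [← Complex.normSq_eq_norm_sq, Complex.normSq_apply, Complex.sub_re, Complex.sub_im,
            vp_re, vp_im]
          ring
        rw [← h1]
        constructor
        · intro h
          have hr : 0 < r := (norm_nonneg _).trans_lt h
          exact ⟨pow_lt_pow_left₀ h (norm_nonneg _) (by norm_num), hr⟩
        · rintro ⟨h, hr⟩
          exact lt_of_pow_lt_pow_left₀ 2 hr.le h
    simp only [hpt]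
    by_cases hs : s ∈ Ioo (c.re - r) (c.re + r)
    · rw [indicator_of_mem hs, ← lintegral_indicator measurableSet_Ioo]
      have hr : 0 < r := by linarith [hs.1, hs.2]
      have hpos : 0 < r ^ 2 - (s - c.re) ^ 2 := by
        have h1 : |s - c.re| < r := by rw [abs_lt]; constructor <;> linarith [hs.1, hs.2]
        have h2 : |s - c.re| ^ 2 < r ^ 2 := pow_lt_pow_left₀ h1 (abs_nonneg _) (by norm_num)
        rw [sq_abs] at h2
        linarith
      refine lintegral_congr fun t => ?_
      have hiff : vp s t ∈ ball c r ↔
          t ∈ Ioo (c.im - √(r ^ 2 - (s - c.re) ^ 2)) (c.im + √(r ^ 2 - (s - c.re) ^ 2)) := by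
        rw [hmem]
        have h3 : (t - c.im) ^ 2 < r ^ 2 - (s - c.re) ^ 2 ↔ |t - c.im| < √(r ^ 2 - (s - c.re) ^ 2) := by
          rw [← sq_abs, Real.lt_sqrt (abs_nonneg _)]
        constructor
        · rintro ⟨h, -⟩
          have h4 := abs_lt.1 (h3.1 (by linarith))
          exact ⟨by linarith [h4.1], by linarith [h4.2]⟩
        · rintro ⟨h, h'⟩
          have h5 := h3.2 (abs_lt.2 ⟨by linarith, by linarith⟩)
          exact ⟨by linarith, hr⟩
      by_cases ht : vp s t ∈ ball c r
      · rw [indicator_of_mem ht, indicator_of_mem (hiff.1 ht)]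
      · rw [indicator_of_notMem ht, indicator_of_notMem fun h => ht (hiff.2 h)]
    · rw [indicator_of_notMem hs]
      have h1 : ∀ t : ℝ, (ball c r).indicator F (vp s t) = 0 := fun t => by
        refine indicator_of_notMem (fun h => hs ?_) _
        obtain ⟨h2, hr⟩ := (hmem t).1 h
        have h3 : |s - c.re| < r := by
          refine abs_lt_of_sq_lt_sq ?_ hr.le
          nlinarith [sq_nonneg (t - c.im)]
        have h4 := abs_lt.1 h3
        exact ⟨by linarith [h4.1], by linarith [h4.2]⟩
      simp [h1]
  · refine Measurable.aemeasurable ?_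
    exact (hF.indicator measurableSet_ball).comp Complex.measurableEquivRealProd.symm.measurable

lemma zeta_log_int {s a b : ℝ} (ha : 0 < a) (hab : a ≤ b) :
    IntervalIntegrable (fun t => Real.log ‖riemannZeta (vp s t)‖) volume a b := by
  have hmer : MeromorphicOn (fun t : ℝ => riemannZeta (vp s t)) (uIcc a b) := by
    intro t ht
    rw [uIcc_of_le hab] at ht
    have hne : vp s t ≠ 1 := fun h => by
      have := congrArg Complex.im h
      rw [vp_im, Complex.one_im] at this
      linarith [ht.1]
    have h1 : AnalyticAt ℝ riemannZeta (vp s t) := (zeta_an hne).restrictScalars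
    have h2 : AnalyticAt ℝ (fun t : ℝ => vp s t) t := by
      unfold vp
      exact analyticAt_const.add
        ((Complex.ofRealCLM.analyticAt t).mul analyticAt_const)
    exact (h1.comp h2).meromorphicAt
  exact hmer.intervalIntegrable_log_norm

/-- **a large value of `ζ` forces points on every line** -/
theorem low_bound {r T : ℝ} (hr : 0 < r) (hr1 : r ≤ 1 / 4) (hT : 4 ≤ T) :
    ENNReal.ofReal (Real.log ‖riemannZeta (vp (1 / 2 + r) T)‖) ≤
      ENNReal.ofReal (2 / r) * (∫⁻ s in Ioo (1 / 2 : ℝ) 1, fewest s T r) +
        ENNReal.ofReal (1 / r + Real.log (Real.log T + 6)) := by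
  have hpi := Real.pi_pos
  set c : ℂ := vp (1 / 2 + r) T with hc
  have hcre : c.re = 1 / 2 + r := vp_re _ _
  have hcim : c.im = T := vp_im _ _
  set L : ℝ := Real.log (Real.log T + 6) with hL
  have hlogT : 0 ≤ Real.log T := Real.log_nonneg (by linarith)
  have hL0 : 0 ≤ L := Real.log_nonneg (by linarith)
  by_cases hI : (∫⁻ s in Ioo (1 / 2 : ℝ) 1, fewest s T r) = ⊤
  · rw [hI, ENNReal.mul_top (by simpa using hr), top_add]
    exact le_top
  by_cases hz : riemannZeta c = 0
  · rw [hz, norm_zero, Real.log_zero, ENNReal.ofReal_zero]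
    exact zero_le
  set I : ENNReal := ∫⁻ s in Ioo (1 / 2 : ℝ) 1, fewest s T r with hIdef
  set A : ℝ := Real.pi * (I.toReal + 1 / 2) with hA
  have hA0 : 0 ≤ A := by positivity
  have hball : ∀ z ∈ closedBall c r, 1 / 2 ≤ z.re ∧ z.re ≤ 1 ∧ T - r ≤ z.im := by
    intro z hz
    rw [mem_closedBall, dist_eq_norm] at hz
    have h1 := abs_le.1 ((Complex.abs_re_le_norm (z - c)).trans hz)
    have h2 := abs_le.1 ((Complex.abs_im_le_norm (z - c)).trans hz)
    rw [Complex.sub_re, hcre] at h1
    rw [Complex.sub_im, hcim] at h2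
    exact ⟨by linarith [h1.1], by linarith [h1.2], by linarith [h2.1]⟩
  have hne1 : ∀ z ∈ closedBall c r, z ≠ 1 := fun z hz h => by
    have h1 := (hball z hz).2.2
    rw [h, Complex.one_im] at h1
    linarith
  have han : AnalyticOnNhd ℂ riemannZeta (closedBall c r) := fun z hz => zeta_an (hne1 z hz)
  obtain ⟨B, hB⟩ := (isCompact_closedBall c r).exists_bound_of_continuousOn han.continuousOn
  set M : ℝ := max L (Real.log (max B 1)) with hM
  have hMz : ∀ z ∈ closedBall c r, Real.log ‖riemannZeta z‖ ≤ M := by
    intro z hz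
    refine le_trans ?_ (le_max_right _ _)
    rcases eq_or_ne ‖riemannZeta z‖ 0 with h0 | h0
    · rw [h0, Real.log_zero]
      exact Real.log_nonneg (le_max_right _ _)
    · exact Real.log_le_log (lt_of_le_of_ne (norm_nonneg _) h0.symm)
        ((hB z hz).trans (le_max_left _ _))
  have hML : L ≤ M := le_max_left _ _
  -- slices
  have hslice : ∀ s ∈ Ioo (c.re - r) (c.re + r),
      ENNReal.ofReal (M - L) * volume (Ioo (c.im - √(r ^ 2 - (s - c.re) ^ 2))
        (c.im + √(r ^ 2 - (s - c.re) ^ 2))) ≤
      (∫⁻ t in Ioo (c.im - √(r ^ 2 - (s - c.re) ^ 2)) (c.im + √(r ^ 2 - (s - c.re) ^ 2)),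
        ENNReal.ofReal (M - Real.log ‖riemannZeta (vp s t)‖)) + ENNReal.ofReal A := by
    intro s hs
    rw [hcre] at hs
    set h : ℝ := √(r ^ 2 - (s - c.re) ^ 2) with hh
    have hh0 : 0 ≤ h := Real.sqrt_nonneg _
    have hhr : h ≤ r := by
      rw [hh]
      refine Real.sqrt_le_iff.2 ⟨hr.le, ?_⟩
      nlinarith [sq_nonneg (s - c.re)]
    have hhsq : h ^ 2 = r ^ 2 - (s - c.re) ^ 2 := by
      rw [hh, Real.sq_sqrt]
      rw [hcre]
      nlinarith [hs.1, hs.2]
    rw [hcim]
    have hs1 : s ≤ 1 := by linarith [hs.2]
    have hab : T - h ≤ T + h := by linarith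
    have hapos : 0 < T - h := by linarith
    have hneR : ∀ z ∈ Icc s 1 ×ℂ Icc (T - h) (T + h), z ≠ 1 := fun z hz h1 => by
      have h2 := (Complex.mem_reProdIm.1 hz).2.1
      rw [h1, Complex.one_im] at h2
      linarith
    have h1 := rect_bound (f := riemannZeta) (α := s) (β := 1) (a := T - h) (b := T + h) hs1 hab
      (fun z hz => zeta_an (hneR z hz)) (fun z hz => zeta_not_zero (hneR z hz))
      (N := fun x => ENNReal.ofReal Real.pi * (fewest x T r + 1)) (fun x hx hzf => by
        refine (seg_bound hh0 (by linarith) hzf).trans ?_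
        gcongr
        exact fewest_mono x (by rw [sub_self, abs_zero, zero_add]; exact hhr))
    have h2 : ∫⁻ x in Ioo s 1, ENNReal.ofReal Real.pi * (fewest x T r + 1) ≤ ENNReal.ofReal A := by
      calc ∫⁻ x in Ioo s 1, ENNReal.ofReal Real.pi * (fewest x T r + 1)
          ≤ ∫⁻ x in Ioo (1 / 2 : ℝ) 1, ENNReal.ofReal Real.pi * (fewest x T r + 1) :=
            lintegral_mono_set (Ioo_subset_Ioo_left (by linarith [hs.1]))
        _ = ENNReal.ofReal Real.pi * (I + ENNReal.ofReal (1 / 2)) := by
            rw [lintegral_const_mul' _ _ ENNReal.ofReal_ne_top,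
              lintegral_add_right _ measurable_const, ← hIdef]
            simp only [lintegral_const, Measure.restrict_apply MeasurableSet.univ, univ_inter,
              Real.volume_Ioo, one_mul]
            norm_num
        _ = ENNReal.ofReal A := by
            rw [hA, ENNReal.ofReal_mul hpi.le, ENNReal.ofReal_add ENNReal.toReal_nonneg (by norm_num),
              ENNReal.ofReal_toReal hI]
    have h3 := (ENNReal.ofReal_le_ofReal_iff hA0).1 (h1.trans h2)
    have h4 := (abs_le.1 h3).1
    have i1 := zeta_log_int (s := 1) hapos hab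
    have i2 := zeta_log_int (s := s) hapos hab
    have h5 : ∫ t in (T - h)..(T + h), Real.log ‖riemannZeta (vp 1 t)‖ ≤ 2 * h * L := by
      have := intervalIntegral.integral_mono_on hab i1 (intervalIntegrable_const (c := L))
        (fun t ht => by
          have ht2 : 2 ≤ t := by linarith [ht.1]
          have h6 := one_line ht2
          have h7 : Real.log t ≤ Real.log T + 1 := by
            have : t ≤ T * Real.exp 1 := by
              have h8 := Real.add_one_le_exp (1 : ℝ)
              nlinarith [ht.2]
            calc Real.log t ≤ Real.log (T * Real.exp 1) := Real.log_le_log (by linarith) this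
              _ = Real.log T + 1 := by
                rw [Real.log_mul (by linarith) (Real.exp_pos _).ne', Real.log_exp]
          rcases eq_or_ne ‖riemannZeta (vp 1 t)‖ 0 with h0 | h0
          · rw [h0, Real.log_zero]; exact hL0
          · exact Real.log_le_log (lt_of_le_of_ne (norm_nonneg _) h0.symm) (by linarith))
      rw [intervalIntegral.integral_const, smul_eq_mul] at this
      linarith
    have hion : IntegrableOn (fun t => M - Real.log ‖riemannZeta (vp s t)‖)
        (Ioo (T - h) (T + h)) volume := by
      have h9 : IntervalIntegrable (fun t => M - Real.log ‖riemannZeta (vp s t)‖) volume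
          (T - h) (T + h) := intervalIntegrable_const.sub i2
      rwa [intervalIntegrable_iff_integrableOn_Ioo_of_le hab] at h9
    have hnn : ∀ᵐ t ∂(volume.restrict (Ioo (T - h) (T + h))),
        (0 : ℝ) ≤ M - Real.log ‖riemannZeta (vp s t)‖ := by
      refine (ae_restrict_iff' measurableSet_Ioo).2 (Eventually.of_forall fun t ht => ?_)
      have hmem : vp s t ∈ closedBall c r := by
        rw [mem_closedBall, dist_eq_norm]
        refine abs_le_of_sq_le_sq' ?_ hr.le |>.2
        rw [← Complex.normSq_eq_norm_sq, Complex.normSq_apply, Complex.sub_re, Complex.sub_im,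
            vp_re, vp_im, hcim]
        nlinarith [ht.1, ht.2]
      linarith [hMz _ hmem]
    rw [← ofReal_integral_eq_lintegral_ofReal hion hnn, ← integral_Ioc_eq_integral_Ioo,
      ← intervalIntegral.integral_of_le hab, intervalIntegral.integral_sub intervalIntegrable_const
      i2, intervalIntegral.integral_const, smul_eq_mul, Real.volume_Ioo,
      ← ENNReal.ofReal_mul (by linarith), ← ENNReal.ofReal_add ?_ hA0]
    · refine ENNReal.ofReal_le_ofReal ?_
      linarith
    · have h10 : 0 ≤ ∫ t in Ioo (T - h) (T + h), (M - Real.log ‖riemannZeta (vp s t)‖) :=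
        integral_nonneg_of_ae hnn
      rw [← integral_Ioc_eq_integral_Ioo, ← intervalIntegral.integral_of_le hab,
        intervalIntegral.integral_sub intervalIntegrable_const i2,
        intervalIntegral.integral_const, smul_eq_mul] at h10
      exact h10
  -- add up
  have hsum : ENNReal.ofReal (M - L) * volume (ball c r) ≤
      ENNReal.ofReal (Real.pi * r ^ 2 * (M - Real.log ‖riemannZeta c‖)) +
        ENNReal.ofReal (2 * r * A) := by
    have hmeas : Measurable fun z => ENNReal.ofReal (M - Real.log ‖riemannZeta z‖) :=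
      ENNReal.measurable_ofReal.comp (measurable_const.sub (Real.measurable_log.comp zeta_meas.norm))
    calc ENNReal.ofReal (M - L) * volume (ball c r)
        = ∫⁻ z in ball c r, ENNReal.ofReal (M - L) := by
          simp
      _ = ∫⁻ s in Ioo (c.re - r) (c.re + r), ENNReal.ofReal (M - L) *
            volume (Ioo (c.im - √(r ^ 2 - (s - c.re) ^ 2))
              (c.im + √(r ^ 2 - (s - c.re) ^ 2))) := by
          rw [ball_slices measurable_const]
          simp only [lintegral_const, Measure.restrict_apply MeasurableSet.univ, univ_inter]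
      _ ≤ ∫⁻ s in Ioo (c.re - r) (c.re + r), ((∫⁻ t in Ioo (c.im - √(r ^ 2 - (s - c.re) ^ 2))
            (c.im + √(r ^ 2 - (s - c.re) ^ 2)),
            ENNReal.ofReal (M - Real.log ‖riemannZeta (vp s t)‖)) + ENNReal.ofReal A) :=
          setLIntegral_mono' measurableSet_Ioo hslice
      _ = (∫⁻ z in ball c r, ENNReal.ofReal (M - Real.log ‖riemannZeta z‖)) +
            ENNReal.ofReal (2 * r * A) := by
          rw [lintegral_add_right _ measurable_const, ball_slices hmeas]
          congr 1
          simp only [lintegral_const, Measure.restrict_apply MeasurableSet.univ, univ_inter,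
            Real.volume_Ioo]
          rw [← ENNReal.ofReal_mul hA0]
          congr 1
          ring
      _ ≤ _ := by
          gcongr
          exact area_submean zeta_meas hr han hz hMz
  have hvol : volume (ball c r) = ENNReal.ofReal (Real.pi * r ^ 2) := by
    rw [Complex.volume_ball, ENNReal.ofReal_mul hpi.le, ENNReal.ofReal_pow hr.le, mul_comm]
    congr 1
    rw [ENNReal.ofReal, Real.toNNReal_of_nonneg hpi.le]
    rfl
  have hMc := hMz c (mem_closedBall_self hr.le)
  rw [hvol, ← ENNReal.ofReal_mul (by linarith), ← ENNReal.ofReal_add (by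
    have : 0 ≤ M - Real.log ‖riemannZeta c‖ := by linarith
    positivity) (by positivity),
    ENNReal.ofReal_le_ofReal_iff (by
      have : 0 ≤ M - Real.log ‖riemannZeta c‖ := by linarith
      positivity)] at hsum
  have hfin : Real.log ‖riemannZeta c‖ ≤ 2 / r * I.toReal + (1 / r + L) := by
    have h1 : Real.pi * r ^ 2 * Real.log ‖riemannZeta c‖ ≤
        Real.pi * r ^ 2 * (2 / r * I.toReal + (1 / r + L)) := by
      have e1 : Real.pi * r ^ 2 * (2 / r * I.toReal + (1 / r + L)) =
          2 * r * A + Real.pi * r ^ 2 * L := by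
        rw [hA]
        field_simp
        ring
      rw [e1]
      nlinarith
    exact le_of_mul_le_mul_left h1 (by positivity)
  calc ENNReal.ofReal (Real.log ‖riemannZeta c‖)
      ≤ ENNReal.ofReal (2 / r * I.toReal + (1 / r + L)) := ENNReal.ofReal_le_ofReal hfin
    _ = _ := by
        rw [ENNReal.ofReal_add (by positivity) (by positivity), ENNReal.ofReal_mul (by positivity),
          ENNReal.ofReal_toReal hI]

end Pool.Agent.H779.LX
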