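import Mathlib
import Pool.Agent.H779.LX.Def
import Pool.Agent.H779.LX.Low
import Pool.Graph.R_pool_sql_team_seeded_63374d34.N799.LH.Back
import Pool.Graph.R_pool_sql_team_seeded_63374d34.N799.LH.Main

/-!
# The number of zeros in a disc, and the function whose real zeros are the points on a line
-/

open MeasureTheory Set Filter Topology Metric

namespace Pool.Agent.H779.LX

/-- an `encard` bound from finite subsets -/
lemma encard_le_of {α : Type*} {S : Set α} {B : ℝ}
    (h : ∀ F : Finset α, (F : Set α) ⊆ S → (F.card : ℝ) ≤ B) :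
    ((S.encard : ENNReal)) ≤ ENNReal.ofReal B := by
  have hfin : S.Finite := by
    by_contra hinf
    obtain ⟨F, hF, hcard⟩ := Set.Infinite.exists_subset_card_eq hinf (⌊B⌋₊ + 1)
    have h1 := h F hF
    rw [hcard] at h1
    push_cast at h1
    linarith [Nat.lt_floor_add_one B]
  have h1 := h hfin.toFinset (by simp)
  rw [hfin.encard_eq_coe_toFinset_card]
  have h2 : ((hfin.toFinset.card : ℕ∞) : ENNReal) = ENNReal.ofReal (hfin.toFinset.card : ℝ) := by
    rw [ENNReal.ofReal_natCast]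
    simp
  rw [h2]
  exact ENNReal.ofReal_le_ofReal h1

/-- Jensen's bound for the number of zeros -/
theorem jensen_card (R r : ℝ) (hr : 0 < r) (hrR : r < R) : ∃ C : ℝ, 0 < C ∧
    ∀ (f : ℂ → ℂ) (c : ℂ) (a : ℝ), 0 ≤ a → AnalyticOnNhd ℂ f (closedBall c R) →
    (∀ z ∈ closedBall c R, ‖f z‖ ≤ Real.exp a) → Real.exp (-a) ≤ ‖f c‖ →
    ∀ F : Finset ℂ, (∀ z ∈ F, z ∈ closedBall c r ∧ f z = 0) → (F.card : ℝ) ≤ C * a := by
  obtain ⟨C, hC, h⟩ := N799.LH.jensen_ZL R r hr hrR
  refine ⟨C, hC, fun f c a ha hf hb hc F hF => ?_⟩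
  have h1 := h f c a ha hf hb hc F hF
  refine le_trans ?_ h1
  have h2 : ∀ z ∈ F, (1 : ℝ) ≤ (analyticOrderNatAt f z : ℝ) := by
    intro z hz
    obtain ⟨hzc, hz0⟩ := hF z hz
    have hzR : z ∈ closedBall c R := closedBall_subset_closedBall hrR.le hzc
    have han := hf z hzR
    have hnt : analyticOrderAt f z ≠ ⊤ := by
      intro htop
      rw [analyticOrderAt_eq_top] at htop
      have hpre : IsPreconnected (closedBall c R) := (convex_closedBall c R).isPreconnected
      have h3 := hf.eqOn_zero_of_preconnected_of_eventuallyEq_zero hpre hzR htop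
      have h4 := h3 (mem_closedBall_self (by linarith) : c ∈ closedBall c R)
      rw [show f c = 0 from h4, norm_zero] at hc
      linarith [Real.exp_pos (-a)]
    have hn0 : analyticOrderAt f z ≠ 0 := by
      rw [Ne, han.analyticOrderAt_eq_zero]
      exact fun h => h hz0
    have h5 : analyticOrderNatAt f z ≠ 0 := by
      unfold analyticOrderNatAt
      intro h6
      rw [ENat.toNat_eq_zero] at h6
      exact h6.elim hn0 hnt
    exact_mod_cast Nat.one_le_iff_ne_zero.2 h5
  calc (F.card : ℝ) = ∑ z ∈ F, (1 : ℝ) := by simp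
    _ ≤ _ := Finset.sum_le_sum h2

/-- the function whose real zeros are the points on a line -/
noncomputable def FF (u : ℂ) (σ T : ℝ) (z : ℂ) : ℂ :=
  (starRingEnd ℂ) u * riemannZeta (σ + Complex.I * (T + z)) -
    u * riemannZeta (σ - Complex.I * (T + z))

lemma FF_zero {u : ℂ} {σ T x : ℝ}
    (h : ∃ y : ℝ, riemannZeta (σ + ((T + x : ℝ) : ℂ) * Complex.I) = y * u) :
    FF u σ T x = 0 := by
  obtain ⟨y, hy⟩ := h
  unfold FF
  have e1 : (σ + Complex.I * (T + x) : ℂ) = σ + ((T + x : ℝ) : ℂ) * Complex.I := by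
    push_cast; ring
  have e2 : (σ - Complex.I * (T + x) : ℂ) = (starRingEnd ℂ) (σ + ((T + x : ℝ) : ℂ) * Complex.I) := by
    simp only [map_add, map_mul, Complex.conj_ofReal, Complex.conj_I]
    push_cast; ring
  rw [e1, e2, riemannZeta_conj, hy, map_mul, Complex.conj_ofReal]
  ring

lemma FF_analytic {u : ℂ} {σ T : ℝ} {z : ℂ} (hz : -T < z.re) : AnalyticAt ℂ (FF u σ T) z := by
  unfold FF
  have h1 : (σ + Complex.I * (T + z) : ℂ) ≠ 1 := fun h => by
    have := congrArg Complex.im h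
    simp at this
    linarith
  have h2 : (σ - Complex.I * (T + z) : ℂ) ≠ 1 := fun h => by
    have := congrArg Complex.im h
    simp at this
    linarith
  have g1 : AnalyticAt ℂ (fun z : ℂ => (σ + Complex.I * (T + z) : ℂ)) z := by fun_prop
  have g2 : AnalyticAt ℂ (fun z : ℂ => (σ - Complex.I * (T + z) : ℂ)) z := by fun_prop
  have k1 : AnalyticAt ℂ (fun z : ℂ => riemannZeta (σ + Complex.I * (T + z))) z :=
    AnalyticAt.comp (g := riemannZeta) (f := fun z : ℂ => (σ + Complex.I * (T + z) : ℂ))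
      (zeta_an h1) g1
  have k2 : AnalyticAt ℂ (fun z : ℂ => riemannZeta (σ - Complex.I * (T + z))) z :=
    AnalyticAt.comp (g := riemannZeta) (f := fun z : ℂ => (σ - Complex.I * (T + z) : ℂ))
      (zeta_an h2) g2
  exact (analyticAt_const.mul k1).sub (analyticAt_const.mul k2)

lemma norm_conj_zeta (s : ℂ) : ‖riemannZeta ((starRingEnd ℂ) s)‖ = ‖riemannZeta s‖ := by
  rw [riemannZeta_conj, Complex.norm_conj]

/-- the two values of `ζ` in `FF` -/
lemma FF_le {u : ℂ} (hu : ‖u‖ = 1) {σ T : ℝ} {z : ℂ} {a b : ℝ}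
    (h1 : ‖riemannZeta (vp (σ - z.im) (T + z.re))‖ ≤ a)
    (h2 : ‖riemannZeta (vp (σ + z.im) (T + z.re))‖ ≤ b) : ‖FF u σ T z‖ ≤ a + b := by
  have e1 : (σ + Complex.I * (T + z) : ℂ) = vp (σ - z.im) (T + z.re) := by
    apply Complex.ext
    · rw [vp_re]; simp; try ring
    · rw [vp_im]; simp
  have e2 : (σ - Complex.I * (T + z) : ℂ) = (starRingEnd ℂ) (vp (σ + z.im) (T + z.re)) := by
    apply Complex.ext
    · rw [Complex.conj_re, vp_re]; simp
    · rw [Complex.conj_im, vp_im]; simp; try ring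
  unfold FF
  rw [e1, e2]
  refine (norm_sub_le _ _).trans ?_
  rw [norm_mul, norm_mul, Complex.norm_conj, hu, one_mul, one_mul, norm_conj_zeta]
  exact add_le_add h1 h2

/-- counting the points on a line by the zeros of `FF` -/
lemma onLine_card {u : ℂ} {σ T r B : ℝ}
    (h : ∀ F : Finset ℂ, (∀ z ∈ F, z.im = 0 ∧ |z.re| ≤ r ∧ FF u σ T z = 0) → (F.card : ℝ) ≤ B) :
    (((onLine u σ T r).encard : ENNReal)) ≤ ENNReal.ofReal B := by
  classical
  refine encard_le_of fun F hF => ?_
  have hinj : Function.Injective (fun t : ℝ => (((t - T : ℝ)) : ℂ)) := fun a b hab => by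
    have : (a - T : ℝ) = b - T := Complex.ofReal_injective hab
    linarith
  have h1 := h (F.image fun t : ℝ => (((t - T : ℝ)) : ℂ)) (fun z hz => by
    obtain ⟨t, ht, rfl⟩ := Finset.mem_image.1 hz
    obtain ⟨h2, h3⟩ := hF ht
    refine ⟨Complex.ofReal_im _, by rw [Complex.ofReal_re]; exact h2, ?_⟩
    refine FF_zero ?_
    rw [add_sub_cancel]
    exact h3)
  rwa [Finset.card_image_of_injective F hinj] at h1

end Pool.Agent.H779.LX
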