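import Mathlib
import Pool.Agent.H779.LX.Card
import Pool.Graph.R_pool_sql_team_seeded_63374d34.N799.LH.Gain
import Pool.Graph.R_pool_sql_team_seeded_63374d34.N799.LH.Iter

/-!
# At most `C log T` points on every line
-/

open MeasureTheory Set Filter Topology Metric

namespace Pool.Agent.H779.LX

lemma encard_biUnion_range {α : Type*} (S : ℕ → Set α) (K : ℕ) :
    (⋃ k ∈ Finset.range K, S k).encard ≤ ∑ k ∈ Finset.range K, (S k).encard := by
  induction K with
  | zero => simp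
  | succ K ih =>
    rw [Finset.range_add_one, Finset.set_biUnion_insert, Finset.sum_insert Finset.notMem_range_self]
    exact (Set.encard_union_le _ _).trans (add_le_add_right ih _)

lemma cover (u : ℂ) (σ T : ℝ) {K : ℕ} (hK : 0 < K) :
    ((onLine u σ T 1).encard : ENNReal) ≤ ∑ k ∈ Finset.range K,
      ((onLine u σ (T + (-1 + (2 * (k : ℝ) + 1) / K)) (1 / K)).encard : ENNReal) := by
  have hK' : (0 : ℝ) < K := by exact_mod_cast hK
  have h1 : onLine u σ T 1 ⊆
      ⋃ k ∈ Finset.range K, onLine u σ (T + (-1 + (2 * (k : ℝ) + 1) / K)) (1 / K) := by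
    rintro t ⟨ht, hx⟩
    have ht' := abs_le.1 ht
    set y : ℝ := (t - T + 1) * K / 2 with hy
    have hy0 : 0 ≤ y := by
      have : 0 ≤ t - T + 1 := by linarith
      positivity
    have hyK : y ≤ K := by
      rw [hy]
      nlinarith
    rcases hyK.eq_or_lt with h | h
    · -- the right end
      refine mem_biUnion (show K - 1 ∈ Finset.range K from Finset.mem_range.2 (by omega)) ⟨?_, hx⟩
      have e1 : ((K - 1 : ℕ) : ℝ) = K - 1 := by
        rw [Nat.cast_sub (by omega)]; simp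
      have e2 : t - T = 1 := by
        have : (t - T + 1) * K = 2 * K := by linarith
        have := mul_right_cancel₀ hK'.ne' this
        linarith
      have e3 : t - (T + (-1 + (2 * ((K - 1 : ℕ) : ℝ) + 1) / K)) = 1 / K := by
        rw [e1]
        field_simp
        rw [show t = T + 1 by linarith]
        ring
      rw [e3, abs_of_pos (by positivity)]
    · have hk : ⌊y⌋₊ < K := (Nat.floor_lt hy0).2 h
      refine mem_biUnion (show ⌊y⌋₊ ∈ Finset.range K from Finset.mem_range.2 hk) ⟨?_, hx⟩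
      have h2 := Nat.floor_le hy0
      have h3 := Nat.lt_floor_add_one y
      have e3 : t - (T + (-1 + (2 * (⌊y⌋₊ : ℝ) + 1) / K)) = (2 * (y - ⌊y⌋₊) - 1) / K := by
        rw [hy]
        field_simp
        ring
      rw [e3, abs_div, abs_of_pos hK']
      refine div_le_div_of_nonneg_right ?_ hK'.le
      rw [abs_le]
      constructor <;> linarith
  have h2 := (Set.encard_le_encard h1).trans (encard_biUnion_range _ K)
  have h3 : ((onLine u σ T 1).encard : ENNReal) ≤
      ((∑ k ∈ Finset.range K,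
        (onLine u σ (T + (-1 + (2 * (k : ℝ) + 1) / K)) (1 / K)).encard : ℕ∞) : ENNReal) := by
    exact_mod_cast h2
  refine h3.trans (le_of_eq ?_)
  exact map_sum ENat.toENNRealRingHom _ _

lemma conj_vp (σ t : ℝ) : (starRingEnd ℂ) (vp σ t) = ⟨σ, -t⟩ := by
  apply Complex.ext <;> simp [vp]

lemma vp_eta (σ t : ℝ) : vp σ t = ⟨σ, t⟩ := by
  apply Complex.ext <;> simp [vp]

/-- polynomial growth -/
lemma poly : ∃ C : ℝ, 1 ≤ C ∧ ∀ σ t : ℝ, -3 ≤ σ → 1 ≤ t → ‖riemannZeta (vp σ t)‖ ≤ C * t ^ 6 := by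
  obtain ⟨C1, hC1, h1⟩ := N799.SP.zeta_growth
  obtain ⟨C2, hC2, h2⟩ := N799.SP.Zf_growth
  refine ⟨max C1 C2, hC1.trans (le_max_left _ _), fun σ t hσ ht => ?_⟩
  rcases le_or_gt (-(1 / 2)) σ with h | h
  · have h3 := h1 (vp σ t) (by rw [vp_re]; exact h) (by rw [vp_im]; exact ht)
    rw [vp_im] at h3
    calc ‖riemannZeta (vp σ t)‖ ≤ C1 * t ^ 2 := h3
      _ ≤ max C1 C2 * t ^ 6 := by
        have h4 : t ^ 2 ≤ t ^ 6 := pow_le_pow_right₀ ht (by norm_num)
        exact mul_le_mul (le_max_left _ _) h4 (by positivity) (by linarith [le_max_left C1 C2])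
  · have h3 := h2 ⟨1 - σ, t⟩ (by simp; linarith) (by simp; linarith) ht
    have e : N799.SP.Zf ⟨1 - σ, t⟩ = riemannZeta ((starRingEnd ℂ) (vp σ t)) := by
      unfold N799.SP.Zf
      congr 1
      rw [conj_vp]
      apply Complex.ext <;> simp
    rw [e, norm_conj_zeta] at h3
    refine h3.trans ?_
    simp only []
    gcongr
    exact le_max_right _ _

/-- one short piece -/
lemma piece_count : ∃ C T₀ : ℝ, 0 < C ∧ 4 ≤ T₀ ∧ ∀ T σ : ℝ, T₀ ≤ T → 1 / 2 ≤ σ → σ ≤ 1 →
    ∀ u : ℂ, ‖u‖ = 1 → ((onLine u σ T (1 / 4)).encard : ENNReal) ≤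
      ENNReal.ofReal (C * Real.log T) := by
  obtain ⟨Cj, hCj, hj⟩ := jensen_card (7 / 4) (31 / 20) (by norm_num) (by norm_num)
  obtain ⟨C1, hC1, h1⟩ := poly
  obtain ⟨C2, hC2, h2⟩ := N799.SP.zeta_right_bounds
  obtain ⟨K, hK, h3⟩ := N799.LH.XX_exp
  refine ⟨Cj * 7, max (max 4 (2 * C1 * 2 ^ 6)) (Real.exp K * C2 * (C2 + 1)), by positivity,
    (le_max_left _ _).trans (le_max_left _ _), fun T σ hT hσ hσ1 u hu => ?_⟩
  have hT4 : 4 ≤ T := ((le_max_left _ _).trans (le_max_left _ _)).trans hT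
  have hTa : 2 * C1 * 2 ^ 6 ≤ T := ((le_max_right _ _).trans (le_max_left _ _)).trans hT
  have hTb : Real.exp K * C2 * (C2 + 1) ≤ T := (le_max_right _ _).trans hT
  have hlog : 0 ≤ Real.log T := Real.log_nonneg (by linarith)
  set c : ℂ := -Complex.I * (σ + 1 / 2) with hc
  have hcre : c.re = 0 := by rw [hc]; simp
  have hcim : c.im = -(σ + 1 / 2) := by rw [hc]; simp
  have hball : ∀ z ∈ closedBall c (7 / 4), |z.re| ≤ 7 / 4 ∧ |z.im + (σ + 1 / 2)| ≤ 7 / 4 := by
    intro z hz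
    rw [mem_closedBall, dist_eq_norm] at hz
    have e1 := (Complex.abs_re_le_norm (z - c)).trans hz
    have e2 := (Complex.abs_im_le_norm (z - c)).trans hz
    rw [Complex.sub_re, hcre, sub_zero] at e1
    rw [Complex.sub_im, hcim, sub_neg_eq_add] at e2
    exact ⟨e1, e2⟩
  have hup : ∀ z ∈ closedBall c (7 / 4), ‖FF u σ T z‖ ≤ Real.exp (7 * Real.log T) := by
    intro z hz
    obtain ⟨e1, e2⟩ := hball z hz
    have e1' := abs_le.1 e1
    have e2' := abs_le.1 e2
    have k1 := h1 (σ - z.im) (T + z.re) (by linarith) (by linarith)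
    have k2 := h1 (σ + z.im) (T + z.re) (by linarith) (by linarith)
    refine (FF_le hu k1 k2).trans ?_
    have k3 : C1 * (T + z.re) ^ 6 ≤ C1 * (2 * T) ^ 6 := by
      have : (T + z.re) ^ 6 ≤ (2 * T) ^ 6 := pow_le_pow_left₀ (by linarith) (by linarith) 6
      exact mul_le_mul_of_nonneg_left this (by linarith)
    have k4 : Real.exp (7 * Real.log T) = T ^ 7 := by
      rw [mul_comm, Real.exp_mul, Real.exp_log (by linarith)]
      norm_cast
    rw [k4]
    calc C1 * (T + z.re) ^ 6 + C1 * (T + z.re) ^ 6 ≤ (2 * C1 * 2 ^ 6) * T ^ 6 := by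
          have : (2 * C1 * 2 ^ 6) * T ^ 6 = 2 * (C1 * (2 * T) ^ 6) := by ring
          linarith
      _ ≤ T * T ^ 6 := by gcongr
      _ = T ^ 7 := by ring
  have hlow : Real.exp (-(7 * Real.log T)) ≤ ‖FF u σ T c‖ := by
    have e1 : (σ + Complex.I * (T + c) : ℂ) = vp (2 * σ + 1 / 2) T := by
      rw [hc]
      unfold vp
      push_cast
      linear_combination (-(σ : ℂ) - 1 / 2) * Complex.I_mul_I
    have e2 : (σ - Complex.I * (T + c) : ℂ) = 1 - vp (3 / 2) T := by
      rw [hc]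
      unfold vp
      push_cast
      linear_combination ((σ : ℂ) + 1 / 2) * Complex.I_mul_I
    have e3 : FF u σ T c = (starRingEnd ℂ) u * riemannZeta (vp (2 * σ + 1 / 2) T) -
        u * N799.SP.Zf (vp (3 / 2) T) := by
      unfold FF N799.SP.Zf
      rw [e1, e2]
    have e4 : ‖riemannZeta (vp (2 * σ + 1 / 2) T)‖ ≤ C2 :=
      (h2 (vp (2 * σ + 1 / 2) T) (by rw [vp_re]; linarith)).2.1
    have e5 : C2⁻¹ ≤ ‖riemannZeta (vp (3 / 2) T)‖ :=
      (h2 (vp (3 / 2) T) (by rw [vp_re])).2.2.1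
    have e6 := (h3 (vp (3 / 2) T) (by rw [vp_re]; norm_num) (by rw [vp_re]; norm_num)
      (by rw [vp_im]; linarith)).2
    rw [vp_re, vp_im] at e6
    have e7 : C2 + 1 ≤ ‖N799.SP.Zf (vp (3 / 2) T)‖ := by
      rw [N799.SP.Zf_eq (by rw [vp_re]; norm_num) (by rw [vp_im]; linarith), norm_mul]
      calc C2 + 1 ≤ Real.exp ((3 / 2 - 1 / 2) * Real.log T - K) * C2⁻¹ := by
            have : (3 / 2 - 1 / 2 : ℝ) * Real.log T - K = Real.log T - K := by ring
            rw [this, Real.exp_sub, Real.exp_log (by linarith)]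
            have hp := Real.exp_pos K
            have hC2' : 0 < C2 := by linarith
            rw [← div_eq_mul_inv, div_div, le_div_iff₀ (by positivity)]
            linarith
        _ ≤ _ := by gcongr
    have e8 : 1 ≤ ‖FF u σ T c‖ := by
      rw [e3]
      have := norm_sub_norm_le (u * N799.SP.Zf (vp (3 / 2) T))
        ((starRingEnd ℂ) u * riemannZeta (vp (2 * σ + 1 / 2) T))
      rw [norm_mul, norm_mul, Complex.norm_conj, hu, one_mul, one_mul, norm_sub_rev] at this
      linarith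
    refine le_trans ?_ e8
    rw [Real.exp_le_one_iff]
    linarith
  refine onLine_card fun F hF => ?_
  have h5 := hj (FF u σ T) c (7 * Real.log T) (by positivity)
    (fun z hz => FF_analytic (by
      have := abs_le.1 (hball z hz).1
      linarith)) hup hlow F (fun z hz => by
        obtain ⟨g1, g2, g3⟩ := hF z hz
        refine ⟨?_, g3⟩
        rw [mem_closedBall, dist_eq_norm]
        refine (abs_le_of_sq_le_sq' ?_ (by norm_num)).2
        rw [← Complex.normSq_eq_norm_sq, Complex.normSq_apply, Complex.sub_re, Complex.sub_im,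
          hcre, hcim, g1]
        have g4 := abs_le.1 g2
        nlinarith)
  linarith

/-- **at most `C log T` points on every line** -/
theorem most_le : ∃ C T₀ : ℝ, 0 < C ∧ 4 ≤ T₀ ∧ ∀ T σ : ℝ, T₀ ≤ T → 1 / 2 ≤ σ → σ ≤ 1 →
    most σ T 1 ≤ ENNReal.ofReal (C * Real.log T) := by
  obtain ⟨C, T₀, hC, hT₀, h⟩ := piece_count
  refine ⟨4 * (2 * C), T₀ + 1, by positivity, by linarith, fun T σ hT hσ hσ1 => ?_⟩
  refine iSup_le fun ⟨u, hu⟩ => ?_
  refine (cover u σ T (K := 4) (by norm_num)).trans ?_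
  have h1 : ∀ k ∈ Finset.range 4, ((onLine u σ (T + (-1 + (2 * (k : ℝ) + 1) / (4 : ℕ)))
      (1 / (4 : ℕ))).encard : ENNReal) ≤ ENNReal.ofReal (2 * C * Real.log T) := by
    intro k hk
    have hk' : (k : ℝ) ≤ 3 := by
      have := Finset.mem_range.1 hk
      exact_mod_cast (by omega : k ≤ 3)
    have hk0 : (0 : ℝ) ≤ k := k.cast_nonneg
    have h2 := h (T + (-1 + (2 * (k : ℝ) + 1) / (4 : ℕ))) σ (by push_cast; linarith) hσ hσ1 u hu
    have e : (1 / ((4 : ℕ) : ℝ)) = 1 / 4 := by norm_num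
    rw [e]
    refine h2.trans (ENNReal.ofReal_le_ofReal ?_)
    have h3 : Real.log (T + (-1 + (2 * (k : ℝ) + 1) / (4 : ℕ))) ≤ 2 * Real.log T := by
      have : T + (-1 + (2 * (k : ℝ) + 1) / (4 : ℕ)) ≤ T ^ 2 := by
        push_cast
        nlinarith
      calc Real.log (T + (-1 + (2 * (k : ℝ) + 1) / (4 : ℕ))) ≤ Real.log (T ^ 2) :=
            Real.log_le_log (by push_cast; linarith) this
        _ = 2 * Real.log T := by rw [Real.log_pow]; norm_num
    nlinarith
  refine (Finset.sum_le_sum h1).trans ?_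
  rw [Finset.sum_const, Finset.card_range, nsmul_eq_mul]
  have : ((4 : ℕ) : ENNReal) = ENNReal.ofReal 4 := by norm_num
  rw [this, ← ENNReal.ofReal_mul (by norm_num)]
  refine ENNReal.ofReal_le_ofReal (le_of_eq ?_)
  ring

end Pool.Agent.H779.LX
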