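import Mathlib
import Pool.Agent.H779.LX.Cnt
import Pool.Graph.R_pool_sql_team_seeded_63374d34.N799.LH.Conv
import Pool.Graph.R_pool_sql_team_seeded_63374d34.N799.LH.Right

/-!
# Two lines near which `ζ` is almost on a line through the origin
-/

open MeasureTheory Set Filter Topology Metric

namespace Pool.Agent.H779.LX

/-- on the whole disc about `σ + iT` the function `FF` is smaller than `e^{-b}` -/
def Bad (ρ b T σ : ℝ) : Prop :=
  ∃ u : ℂ, ‖u‖ = 1 ∧ ∀ z ∈ closedBall (0 : ℂ) ρ, ‖FF u σ T z‖ < Real.exp (-b)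

lemma bad_point {ρ b T σ : ℝ} (h : Bad ρ b T σ) : ∃ v : ℂ, ‖v‖ = 1 ∧ ∀ s : ℂ,
    ‖s - vp σ T‖ ≤ ρ → ‖riemannZeta s - v * riemannZeta (2 * σ - s)‖ ≤ Real.exp (-b) := by
  obtain ⟨u, hu, h⟩ := h
  refine ⟨u ^ 2, by rw [norm_pow, hu, one_pow], fun s hs => ?_⟩
  have hz : -Complex.I * (s - vp σ T) ∈ closedBall (0 : ℂ) ρ := by
    rw [mem_closedBall, dist_zero_right, norm_mul, norm_neg, Complex.norm_I, one_mul]
    exact hs
  have h1 := h _ hz
  have e1 : (σ + Complex.I * (T + -Complex.I * (s - vp σ T)) : ℂ) = s := by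
    unfold vp
    linear_combination (-(s : ℂ) + σ + T * Complex.I) * Complex.I_mul_I
  have e2 : (σ - Complex.I * (T + -Complex.I * (s - vp σ T)) : ℂ) = 2 * σ - s := by
    unfold vp
    linear_combination ((s : ℂ) - σ - T * Complex.I) * Complex.I_mul_I
  unfold FF at h1
  rw [e1, e2] at h1
  have h8 : u * (starRingEnd ℂ) u = 1 := by
    rw [Complex.mul_conj, Complex.normSq_eq_norm_sq, hu]
    simp
  have e3 : riemannZeta s - u ^ 2 * riemannZeta (2 * σ - s) =
      u * ((starRingEnd ℂ) u * riemannZeta s - u * riemannZeta (2 * σ - s)) := by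
    linear_combination (-(riemannZeta s)) * h8
  rw [e3, norm_mul, hu, one_mul]
  exact h1.le

/-- two bad lines -/
lemma two_bad {ρ b T σ Δ : ℝ} (h1 : Bad ρ b T σ) (h2 : Bad ρ b T (σ + Δ)) (hΔ : 0 ≤ Δ)
    (hΔ' : Δ ≤ ρ / 2) : ∃ q : ℂ, ‖q‖ = 1 ∧ ∀ s : ℂ, ‖s - vp σ T‖ ≤ ρ / 2 →
      ‖riemannZeta s - q * riemannZeta (s + 2 * Δ)‖ ≤ 2 * Real.exp (-b) := by
  obtain ⟨v, hv, g1⟩ := bad_point h1
  obtain ⟨w, hw, g2⟩ := bad_point h2
  refine ⟨v * (starRingEnd ℂ) w, by rw [norm_mul, Complex.norm_conj, hv, hw, one_mul],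
    fun s hs => ?_⟩
  have k1 := g1 s (by linarith)
  have k2 := g2 (s + 2 * Δ) (by
    have e : s + 2 * Δ - vp (σ + Δ) T = (s - vp σ T) + (Δ : ℂ) := by
      unfold vp
      push_cast
      ring
    rw [e]
    refine (norm_add_le _ _).trans ?_
    rw [Complex.norm_real, Real.norm_eq_abs, abs_of_nonneg hΔ]
    linarith)
  have e2 : (2 * ((σ + Δ : ℝ) : ℂ) - (s + 2 * Δ)) = 2 * σ - s := by
    push_cast
    ring
  rw [e2] at k2
  have h8 : w * (starRingEnd ℂ) w = 1 := by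
    rw [Complex.mul_conj, Complex.normSq_eq_norm_sq, hw]
    simp
  have e3 : riemannZeta s - v * (starRingEnd ℂ) w * riemannZeta (s + 2 * Δ) =
      (riemannZeta s - v * riemannZeta (2 * σ - s)) -
      v * (starRingEnd ℂ) w * (riemannZeta (s + 2 * Δ) - w * riemannZeta (2 * σ - s)) := by
    linear_combination (-(v * riemannZeta (2 * σ - s))) * h8
  rw [e3]
  refine (norm_sub_le _ _).trans ?_
  rw [norm_mul, norm_mul, Complex.norm_conj, hv, hw, one_mul, one_mul]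
  linarith

/-- far to the right the difference is not small -/
lemma right_lower (δ : ℝ) (hδ : 0 < δ) : ∃ X c₀ : ℝ, 3 ≤ X ∧ 0 < c₀ ∧ ∀ Δ t : ℝ, δ ≤ Δ → ∀ q : ℂ,
    ‖q‖ = 1 → c₀ ≤ ‖riemannZeta (vp X t) - q * riemannZeta (vp X t + 2 * Δ)‖ +
      ‖riemannZeta (vp (X + 1) t) - q * riemannZeta (vp (X + 1) t + 2 * Δ)‖ := by
  obtain ⟨C, hC, h⟩ := N799.LH.zeta_tail 2
  set κ : ℝ := 1 - Real.exp (-(2 * δ * Real.log 2)) with hκ
  have hlog2 : 0 < Real.log 2 := Real.log_pos (by norm_num)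
  have hκ0 : 0 < κ := by
    have : Real.exp (-(2 * δ * Real.log 2)) < 1 := by
      rw [Real.exp_lt_one_iff]
      have : 0 < 2 * δ * Real.log 2 := by positivity
      linarith
    linarith
  obtain ⟨n, hn⟩ := pow_unbounded_of_one_lt (16 * C / κ) (by norm_num : (1 : ℝ) < 3 / 2)
  set X : ℝ := (n : ℝ) + 3 with hX
  have hX3 : 3 ≤ X := by
    have : (0 : ℝ) ≤ n := n.cast_nonneg
    linarith
  have hX2 : 2 ≤ X := by linarith
  refine ⟨X, κ * (1 / 2) ^ (n + 3) / 4, hX3, by positivity, fun Δ t hΔ q hq => ?_⟩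
  have hΔ0 : 0 < Δ := lt_of_lt_of_le hδ hΔ
  -- the two leading terms
  have key : ∀ s : ℂ, X ≤ s.re →
      ‖riemannZeta s - (1 + Complex.exp (-(Real.log 2 : ℂ) * s))‖ ≤ C * (1 / 3) ^ (n + 3) := by
    intro s hs
    have h1 := h s (by linarith)
    have e1 : ∑ n ∈ Finset.range 2, Complex.exp (-(Real.log ((n + 1 : ℕ) : ℝ) : ℂ) * s) =
        1 + Complex.exp (-(Real.log 2 : ℂ) * s) := by
      rw [Finset.sum_range_succ, Finset.sum_range_one]
      norm_num
    rw [e1] at h1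
    refine h1.trans ?_
    have e2 : ((2 : ℕ) : ℝ) + 1 = 3 := by norm_num
    rw [e2]
    have e3 : (3 : ℝ) ^ (-s.re) ≤ (1 / 3) ^ (n + 3) := by
      calc (3 : ℝ) ^ (-s.re) ≤ (3 : ℝ) ^ (-X) := by
            apply Real.rpow_le_rpow_of_exponent_le (by norm_num); linarith
        _ = (1 / 3) ^ (n + 3) := by
            rw [hX, Real.rpow_neg (by norm_num)]
            have : ((n : ℝ) + 3) = ((n + 3 : ℕ) : ℝ) := by push_cast; ring
            rw [this, Real.rpow_natCast, one_div, inv_pow]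
    exact mul_le_mul_of_nonneg_left e3 hC.le
  set s : ℂ := vp X t with hs
  have hs1 : vp (X + 1) t = s + 1 := by
    rw [hs]; unfold vp; push_cast; ring
  rw [hs1]
  have hsre : s.re = X := vp_re _ _
  set e : ℂ := Complex.exp (-(Real.log 2 : ℂ) * s) with he
  set r : ℂ := Complex.exp (-(Real.log 2 : ℂ) * (2 * Δ)) with hr
  have a1 := key s (by rw [hsre])
  have a2 := key (s + 2 * Δ) (by
    rw [Complex.add_re, hsre]
    simp
    linarith)
  have a3 := key (s + 1) (by rw [Complex.add_re, hsre, Complex.one_re]; linarith)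
  have a4 := key (s + 1 + 2 * Δ) (by
    rw [Complex.add_re, Complex.add_re, hsre, Complex.one_re]
    simp
    linarith)
  have hhalf : Complex.exp (-(Real.log 2 : ℂ)) = 1 / 2 := by
    rw [Complex.exp_neg, ← Complex.ofReal_exp, Real.exp_log (by norm_num)]
    norm_num
  have b2 : Complex.exp (-(Real.log 2 : ℂ) * (s + 2 * Δ)) = e * r := by
    rw [he, hr, ← Complex.exp_add]; congr 1; ring
  have b3 : Complex.exp (-(Real.log 2 : ℂ) * (s + 1)) = e / 2 := by
    rw [he, mul_add, mul_one, Complex.exp_add, hhalf]; ring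
  have b4 : Complex.exp (-(Real.log 2 : ℂ) * (s + 1 + 2 * Δ)) = e * r / 2 := by
    rw [he, hr, show (-(Real.log 2 : ℂ) * (s + 1 + 2 * Δ)) = -(Real.log 2 : ℂ) * s +
      (-(Real.log 2 : ℂ) * (2 * Δ)) + -(Real.log 2 : ℂ) by ring, Complex.exp_add, Complex.exp_add,
      hhalf]
    ring
  rw [b2] at a2
  rw [b3] at a3
  rw [b4] at a4
  set E : ℝ := C * (1 / 3) ^ (n + 3) with hE
  have hne : ‖e‖ = (1 / 2) ^ (n + 3) := by
    rw [he, Complex.norm_exp]
    have : (-(Real.log 2 : ℂ) * s).re = -(Real.log 2 * X) := by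
      rw [← Complex.ofReal_neg, Complex.re_ofReal_mul, hsre]
      ring
    rw [this, hX]
    have e5 : -(Real.log 2 * ((n : ℝ) + 3)) = -(((n + 3 : ℕ) : ℝ) * Real.log 2) := by
      push_cast; ring
    rw [e5, Real.exp_neg, ← Real.log_pow, Real.exp_log (by positivity), one_div, inv_pow]
  have hnr : ‖r‖ ≤ 1 - κ := by
    rw [hr, Complex.norm_exp]
    have : (-(Real.log 2 : ℂ) * (2 * Δ)).re = -(2 * Δ * Real.log 2) := by
      rw [show (-(Real.log 2 : ℂ) * (2 * Δ)) = ((-(2 * Δ * Real.log 2) : ℝ) : ℂ) by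
        push_cast; ring, Complex.ofReal_re]
    rw [this, hκ, sub_sub_cancel]
    refine Real.exp_le_exp.2 ?_
    nlinarith
  have hlow : κ ≤ ‖1 - q * r‖ := by
    have h1 := norm_sub_norm_le (1 : ℂ) (q * r)
    rw [norm_one, norm_mul, hq, one_mul] at h1
    linarith
  have hmain : κ * (1 / 2) ^ (n + 3) / 2 ≤ ‖(1 - q * r) * (e / 2)‖ := by
    rw [norm_mul, norm_div, hne]
    have h2 : ‖(2 : ℂ)‖ = 2 := by norm_num
    rw [h2]
    have h3 : (0 : ℝ) ≤ (1 / 2) ^ (n + 3) := by positivity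
    nlinarith
  have hid : (1 - q * r) * (e / 2) =
      (riemannZeta s - q * riemannZeta (s + 2 * Δ)) -
      (riemannZeta (s + 1) - q * riemannZeta (s + 1 + 2 * Δ)) -
      (riemannZeta s - (1 + e)) + q * (riemannZeta (s + 2 * Δ) - (1 + e * r)) +
      (riemannZeta (s + 1) - (1 + e / 2)) -
      q * (riemannZeta (s + 1 + 2 * Δ) - (1 + e * r / 2)) := by ring
  have hup : ‖(1 - q * r) * (e / 2)‖ ≤ ‖riemannZeta s - q * riemannZeta (s + 2 * Δ)‖ +
      ‖riemannZeta (s + 1) - q * riemannZeta (s + 1 + 2 * Δ)‖ + 4 * E := by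
    rw [hid]
    refine (norm_sub_le _ _).trans ?_
    have n1 : ‖q * (riemannZeta (s + 1 + 2 * Δ) - (1 + e * r / 2))‖ ≤ E := by
      rw [norm_mul, hq, one_mul]; exact a4
    have n2 : ‖q * (riemannZeta (s + 2 * Δ) - (1 + e * r))‖ ≤ E := by
      rw [norm_mul, hq, one_mul]; exact a2
    have n3 := norm_add_le ((riemannZeta s - q * riemannZeta (s + 2 * Δ)) -
      (riemannZeta (s + 1) - q * riemannZeta (s + 1 + 2 * Δ)) -
      (riemannZeta s - (1 + e)) + q * (riemannZeta (s + 2 * Δ) - (1 + e * r)))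
      (riemannZeta (s + 1) - (1 + e / 2))
    have n4 := norm_add_le ((riemannZeta s - q * riemannZeta (s + 2 * Δ)) -
      (riemannZeta (s + 1) - q * riemannZeta (s + 1 + 2 * Δ)) -
      (riemannZeta s - (1 + e))) (q * (riemannZeta (s + 2 * Δ) - (1 + e * r)))
    have n5 := norm_sub_le ((riemannZeta s - q * riemannZeta (s + 2 * Δ)) -
      (riemannZeta (s + 1) - q * riemannZeta (s + 1 + 2 * Δ))) (riemannZeta s - (1 + e))
    have n6 := norm_sub_le (riemannZeta s - q * riemannZeta (s + 2 * Δ))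
      (riemannZeta (s + 1) - q * riemannZeta (s + 1 + 2 * Δ))
    linarith
  have hEs : 4 * E ≤ κ * (1 / 2) ^ (n + 3) / 4 := by
    have h4 : (16 * C / κ) ≤ (3 / 2 : ℝ) ^ (n + 3) :=
      hn.le.trans (pow_le_pow_right₀ (by norm_num) (by omega))
    rw [div_le_iff₀ hκ0] at h4
    have h5 : (1 / 3 : ℝ) ^ (n + 3) * (3 / 2) ^ (n + 3) = (1 / 2) ^ (n + 3) := by
      rw [← mul_pow]; norm_num
    have h6 : (0 : ℝ) < (1 / 3) ^ (n + 3) := by positivity
    have h7 := mul_le_mul_of_nonneg_left h4 h6.le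
    rw [hE]
    nlinarith
  linarith

end Pool.Agent.H779.LX
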