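import Mathlib
import Pool.Agent.H779.LX.Bad

/-!
# Two bad lines are very close to each other
-/

open MeasureTheory Set Filter Topology Metric

namespace Pool.Agent.H779.LX

lemma diff_small {ρ η₁ ε' X T T' σ Δ L : ℝ} {q : ℂ} (hρ : 0 < ρ) (hρ1 : ρ ≤ 1) (hη₁ : 0 < η₁)
    (hX : 3 ≤ X) (hL : 0 ≤ L) (hε' : ε' = ρ / (2 * (X + 1)) * η₁ / (2 * Real.pi))
    (hT' : |T' - T| ≤ 1) (hT : X + 10 ≤ T)
    (hσ : 1 / 2 ≤ σ) (hσ1 : σ ≤ 1) (hΔ : 0 ≤ Δ) (hq : ‖q‖ = 1)
    (hbd : ∀ w : ℂ, 1 / 2 ≤ w.re → |w.im - T| ≤ X + 4 → ‖riemannZeta w‖ ≤ Real.exp (ε' * L))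
    (hsm : ∀ s : ℂ, ‖s - vp σ T'‖ ≤ ρ / 2 →
      ‖riemannZeta s - q * riemannZeta (s + 2 * Δ)‖ ≤ 2 * Real.exp (-(η₁ * L)))
    {Y : ℝ} (hY : 3 ≤ Y) (hY1 : Y ≤ X + 1) :
    ‖riemannZeta (vp Y T') - q * riemannZeta (vp Y T' + 2 * Δ)‖ ≤
      2 * Real.exp (-(ε' * L)) := by
  have hpi := Real.pi_pos
  have hTT := abs_le.1 hT'
  set D : ℂ → ℂ := fun s => riemannZeta s - q * riemannZeta (s + 2 * Δ) with hD
  set c : ℂ := vp Y T' with hc
  have hcre : c.re = Y := vp_re _ _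
  have hcim : c.im = T' := vp_im _ _
  set R : ℝ := Y - σ with hR
  have hR0 : 0 < R := by rw [hR]; linarith
  have hRX : R ≤ X + 1 := by rw [hR]; linarith
  set θ : ℝ := ρ / (2 * (X + 1)) with hθ
  have hθ0 : 0 < θ := by rw [hθ]; positivity
  have hθ1 : θ ≤ 1 := by
    rw [hθ, div_le_one (by positivity)]
    linarith
  have hθpi : θ ≤ Real.pi := by linarith [Real.pi_gt_three]
  have hball : ∀ z ∈ closedBall c R, σ ≤ z.re ∧ |z.im - T| ≤ X + 4 ∧ 0 < z.im := by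
    intro z hz
    rw [mem_closedBall, dist_eq_norm] at hz
    have e1 := abs_le.1 ((Complex.abs_re_le_norm (z - c)).trans hz)
    have e2 := abs_le.1 ((Complex.abs_im_le_norm (z - c)).trans hz)
    rw [Complex.sub_re, hcre] at e1
    rw [Complex.sub_im, hcim] at e2
    refine ⟨by linarith [e1.1], ?_, by linarith [e2.1]⟩
    rw [abs_le]
    constructor <;> linarith [e2.1, e2.2]
  have hre2 : ∀ z : ℂ, (z + 2 * Δ).re = z.re + 2 * Δ := fun z => by simp
  have him2 : ∀ z : ℂ, (z + 2 * Δ).im = z.im := fun z => by simp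
  have han : AnalyticOnNhd ℂ D (closedBall c R) := by
    intro z hz
    obtain ⟨-, -, h3⟩ := hball z hz
    have n1 : z ≠ 1 := fun h => by rw [h, Complex.one_im] at h3; exact lt_irrefl _ h3
    have n2 : z + 2 * Δ ≠ 1 := fun h => by
      have := congrArg Complex.im h
      rw [him2, Complex.one_im] at this
      linarith
    have g2 : AnalyticAt ℂ (fun z : ℂ => z + 2 * Δ) z := by fun_prop
    have k2 : AnalyticAt ℂ (fun z : ℂ => riemannZeta (z + 2 * Δ)) z :=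
      AnalyticAt.comp (g := riemannZeta) (f := fun z : ℂ => z + 2 * Δ) (zeta_an n2) g2
    exact (zeta_an n1).sub (analyticAt_const.mul k2)
  have h1 : ∀ z ∈ sphere c R, ‖D z‖ ≤ Real.exp (Real.log 2 + ε' * L) := by
    intro z hz
    obtain ⟨b1, b2, -⟩ := hball z (sphere_subset_closedBall hz)
    have k1 := hbd z (by linarith) b2
    have k2 := hbd (z + 2 * Δ) (by rw [hre2]; linarith) (by rw [him2]; exact b2)
    rw [Real.exp_add, Real.exp_log (by norm_num)]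
    refine (norm_sub_le _ _).trans ?_
    rw [norm_mul, hq, one_mul]
    linarith
  have h2 : ∀ φ : ℝ, |φ - Real.pi| ≤ θ →
      ‖D (circleMap c R φ)‖ ≤ Real.exp (-(η₁ * L - Real.log 2)) := by
    intro φ hφ
    have e1 : circleMap c R Real.pi = vp σ T' := by
      rw [circleMap, Complex.exp_pi_mul_I, hc, hR]
      unfold vp
      push_cast
      ring
    have e2 : ‖circleMap c R φ - vp σ T'‖ ≤ ρ / 2 := by
      rw [← e1, ← dist_eq_norm]
      refine ((lipschitzWith_circleMap c R).dist_le_mul φ Real.pi).trans ?_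
      rw [Real.dist_eq, Real.coe_nnabs, abs_of_pos hR0]
      calc R * |φ - Real.pi| ≤ (X + 1) * θ := by
            apply mul_le_mul hRX hφ (abs_nonneg _) (by linarith)
        _ = ρ / 2 := by
            rw [hθ]
            field_simp
    have e3 := hsm _ e2
    have e4 : Real.exp (-(η₁ * L - Real.log 2)) = 2 * Real.exp (-(η₁ * L)) := by
      rw [show -(η₁ * L - Real.log 2) = Real.log 2 + -(η₁ * L) by ring, Real.exp_add,
        Real.exp_log (by norm_num)]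
    rw [e4]
    exact e3
  have hε'0 : 0 < ε' := by rw [hε']; positivity
  have h3 := arc_small hR0 han (a := Real.log 2 + ε' * L) (b := η₁ * L - Real.log 2)
    (by
      have : 0 ≤ (ε' + η₁) * L := by positivity
      linarith) hθ0.le hθpi h1 h2
  refine h3.trans ?_
  rw [show (2 : ℝ) * Real.exp (-(ε' * L)) = Real.exp (Real.log 2 + -(ε' * L)) by
    rw [Real.exp_add, Real.exp_log (by norm_num)]]
  refine Real.exp_le_exp.2 ?_
  have e5 : θ / Real.pi * η₁ = 2 * ε' := by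
    rw [hε']
    field_simp
  have e6 : 0 ≤ θ / Real.pi * (ε' * L) := by positivity
  have e7 : θ / Real.pi * (Real.log 2 + ε' * L + (η₁ * L - Real.log 2)) =
      θ / Real.pi * (ε' * L) + 2 * ε' * L := by
    rw [← e5]; ring
  rw [e7]
  linarith

/-- two bad lines are very close -/
theorem bad_close (ρ δ η₁ : ℝ) (hρ : 0 < ρ) (hρ1 : ρ ≤ 1) (hδ : 0 < δ) (hη₁ : 0 < η₁) :
    ∃ η A T₀ : ℝ, 0 < η ∧ 4 ≤ T₀ ∧ ∀ T : ℝ, T₀ ≤ T → N799.LH.SL η A T →
      ∀ T' σ Δ : ℝ, |T' - T| ≤ 1 → 1 / 2 ≤ σ → σ ≤ 1 → 0 ≤ Δ → Δ ≤ ρ / 2 →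
      Bad ρ (η₁ * Real.log T) T' σ → Bad ρ (η₁ * Real.log T) T' (σ + Δ) → Δ < δ := by
  obtain ⟨X, c₀, hX, hc₀, hlow⟩ := right_lower δ hδ
  set ε' : ℝ := ρ / (2 * (X + 1)) * η₁ / (2 * Real.pi) with hε'
  have hpi := Real.pi_pos
  have hε'0 : 0 < ε' := by rw [hε']; positivity
  obtain ⟨η, A, t₀, hη, ht₀, h⟩ := N799.LH.right_of_line ε' (X + 4) hε'0 (by linarith)
  obtain ⟨t₁, ht₁, hlg⟩ := N799.SP.log_large ((Real.log (4 / c₀) + 1) / ε')
  refine ⟨η, A, max (max t₀ t₁) (X + 10), hη, ht₀.trans ((le_max_left _ _).trans (le_max_left _ _)),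
    fun T hT hSL T' σ Δ hT' hσ hσ1 hΔ hΔρ hb1 hb2 => ?_⟩
  have hTa : t₀ ≤ T := ((le_max_left _ _).trans (le_max_left _ _)).trans hT
  have hTb : t₁ ≤ T := ((le_max_right _ _).trans (le_max_left _ _)).trans hT
  have hTc : X + 10 ≤ T := (le_max_right _ _).trans hT
  have hL : 0 ≤ Real.log T := Real.log_nonneg (by linarith)
  by_contra hcon
  push Not at hcon
  obtain ⟨q, hq, hsm⟩ := two_bad hb1 hb2 hΔ hΔρ
  have hbd := h T hTa hSL
  have d1 := diff_small hρ hρ1 hη₁ hX hL hε' hT' hTc hσ hσ1 hΔ hq hbd hsm hX (by linarith)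
  have d2 := diff_small hρ hρ1 hη₁ hX hL hε' hT' hTc hσ hσ1 hΔ hq hbd hsm
    (Y := X + 1) (by linarith) le_rfl
  have d3 := hlow Δ T' hcon q hq
  have d4 := hlg T hTb
  rw [div_le_iff₀ hε'0] at d4
  have d5 : Real.exp (-(ε' * Real.log T)) < c₀ / 4 := by
    rw [← Real.lt_log_iff_exp_lt (by positivity)]
    have : Real.log (c₀ / 4) = -Real.log (4 / c₀) := by
      rw [← Real.log_inv, inv_div]
    rw [this]
    linarith
  linarith

end Pool.Agent.H779.LX
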