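import Mathlib
import Pool.Agent.H779.LX.Close

/-!
# Few points on every line, on average, where `ζ` is small on the critical line
-/

open MeasureTheory Set Filter Topology Metric

namespace Pool.Agent.H779.LX

lemma SL_mono {η η' A A' T : ℝ} (hη : η ≤ η') (hA : A' ≤ A) (hT : 1 ≤ T)
    (h : N799.LH.SL η A T) : N799.LH.SL η' A' T := by
  intro y hy
  refine (h y (hy.trans hA)).trans (Real.exp_le_exp.2 ?_)
  exact mul_le_mul_of_nonneg_right hη (Real.log_nonneg hT)

lemma good_piece (ρ : ℝ) (hρ : 0 < ρ) (hρ1 : ρ ≤ 1) : ∃ C : ℝ, 0 < C ∧ ∀ T' σ a : ℝ,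
    2 ≤ T' → 0 ≤ a → 1 / 2 + ρ ≤ σ →
    (∀ w : ℂ, 1 / 2 ≤ w.re → |w.im - T'| ≤ ρ → 2 * ‖riemannZeta w‖ ≤ Real.exp a) →
    ¬Bad (ρ / 8) a T' σ → ∀ u : ℂ, ‖u‖ = 1 →
    ((onLine u σ T' (ρ / 8)).encard : ENNReal) ≤ ENNReal.ofReal (C * a) := by
  obtain ⟨C, hC, hj⟩ := jensen_card (ρ / 2) (ρ / 4) (by positivity) (by linarith)
  refine ⟨C, hC, fun T' σ a hT' ha hσ hb hbad u hu => ?_⟩
  have h1 : ∃ z ∈ closedBall (0 : ℂ) (ρ / 8), Real.exp (-a) ≤ ‖FF u σ T' z‖ := by
    by_contra hcon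
    push Not at hcon
    exact hbad ⟨u, hu, hcon⟩
  obtain ⟨c, hc, hlow⟩ := h1
  rw [mem_closedBall, dist_zero_right] at hc
  have hin : ∀ z ∈ closedBall c (ρ / 2), ‖z‖ ≤ ρ := by
    intro z hz
    rw [mem_closedBall, dist_eq_norm] at hz
    calc ‖z‖ = ‖(z - c) + c‖ := by ring_nf
      _ ≤ ‖z - c‖ + ‖c‖ := norm_add_le _ _
      _ ≤ ρ := by linarith
  have hup : ∀ z ∈ closedBall c (ρ / 2), ‖FF u σ T' z‖ ≤ Real.exp a := by
    intro z hz
    have e0 := hin z hz
    have e1 := abs_le.1 ((Complex.abs_re_le_norm z).trans e0)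
    have e2 := abs_le.1 ((Complex.abs_im_le_norm z).trans e0)
    have k1 := hb (vp (σ - z.im) (T' + z.re)) (by rw [vp_re]; linarith [e2.2])
      (by rw [vp_im, abs_le]; constructor <;> linarith [e1.1, e1.2])
    have k2 := hb (vp (σ + z.im) (T' + z.re)) (by rw [vp_re]; linarith [e2.1])
      (by rw [vp_im, abs_le]; constructor <;> linarith [e1.1, e1.2])
    have := FF_le hu (a := Real.exp a / 2) (b := Real.exp a / 2) (z := z) (σ := σ) (T := T')
      (by linarith) (by linarith)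
    linarith
  refine onLine_card fun F hF => ?_
  refine hj (FF u σ T') c a ha (fun z hz => FF_analytic (by
    have := abs_le.1 ((Complex.abs_re_le_norm z).trans (hin z hz))
    linarith [this.1])) hup hlow F (fun z hz => ?_)
  obtain ⟨g1, g2, g3⟩ := hF z hz
  refine ⟨?_, g3⟩
  rw [mem_closedBall, dist_eq_norm]
  have e3 : ‖z‖ ≤ ρ / 8 := by
    have : z = (z.re : ℂ) := by apply Complex.ext <;> simp [g1]
    rw [this, Complex.norm_real]
    exact g2
  calc ‖z - c‖ ≤ ‖z‖ + ‖c‖ := norm_sub_le _ _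
    _ ≤ ρ / 4 := by linarith

/-- all pieces are good -/
lemma good_sigma {ρ C : ℝ} {K : ℕ} (hK : 0 < K) (hKρ : 1 / (K : ℝ) ≤ ρ / 8) {T σ a : ℝ}
    (h : ∀ k < K, ∀ u : ℂ, ‖u‖ = 1 →
      ((onLine u σ (T + (-1 + (2 * (k : ℝ) + 1) / K)) (ρ / 8)).encard : ENNReal) ≤
        ENNReal.ofReal (C * a)) :
    most σ T 1 ≤ ENNReal.ofReal (K * C * a) := by
  refine iSup_le fun ⟨u, hu⟩ => ?_
  refine (cover u σ T hK).trans ?_
  have h1 : ∀ k ∈ Finset.range K, ((onLine u σ (T + (-1 + (2 * (k : ℝ) + 1) / K))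
      (1 / K)).encard : ENNReal) ≤ ENNReal.ofReal (C * a) := by
    intro k hk
    refine le_trans ?_ (h k (Finset.mem_range.1 hk) u hu)
    have := Set.encard_le_encard (onLine_mono u σ (T := T + (-1 + (2 * (k : ℝ) + 1) / K))
      (T' := T + (-1 + (2 * (k : ℝ) + 1) / K)) (r := 1 / K) (r' := ρ / 8)
      (by rw [sub_self, abs_zero, zero_add]; exact hKρ))
    exact_mod_cast this
  refine (Finset.sum_le_sum h1).trans ?_
  rw [Finset.sum_const, Finset.card_range, nsmul_eq_mul, mul_assoc]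
  refine le_of_eq ?_
  rw [ENNReal.ofReal_mul (p := (K : ℝ)) (by positivity), ENNReal.ofReal_natCast]

/-- the piece centres are within 1 of `T` -/
lemma centre_near {K k : ℕ} (hk : k < K) (T : ℝ) :
    |T + (-1 + (2 * (k : ℝ) + 1) / K) - T| ≤ 1 := by
  have hK : (0 : ℝ) < K := by exact_mod_cast (by omega : 0 < K)
  have hk' : (k : ℝ) + 1 ≤ K := by exact_mod_cast hk
  have h1 : 0 ≤ (2 * (k : ℝ) + 1) / K := by positivity
  have h2 : (2 * (k : ℝ) + 1) / K ≤ 2 := by
    rw [div_le_iff₀ hK]; linarith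
  rw [abs_le]
  constructor <;> linarith

/-- **few points on every line, on average, where `ζ` is small on the critical line** -/
theorem few (ε : ℝ) (hε : 0 < ε) : ∃ η A T₀ : ℝ, 0 < η ∧ 4 ≤ T₀ ∧ ∀ T : ℝ, T₀ ≤ T →
    N799.LH.SL η A T →
    ∫⁻ σ in Ioo (1 / 2 : ℝ) 1, most σ T 1 ≤ ENNReal.ofReal (ε * Real.log T) := by
  obtain ⟨C0, T₁, hC0, hT₁, hmost⟩ := most_le
  set ρ : ℝ := min (1 / 4) (ε / (4 * C0)) with hρdef
  have hρ : 0 < ρ := by rw [hρdef]; positivity
  have hρ4 : ρ ≤ 1 / 4 := min_le_left _ _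
  have hρC : C0 * ρ ≤ ε / 4 := by
    have : ρ ≤ ε / (4 * C0) := min_le_right _ _
    rw [le_div_iff₀ (by positivity)] at this
    linarith
  set K : ℕ := ⌈8 / ρ⌉₊ with hKdef
  have hK8 : 8 / ρ ≤ K := Nat.le_ceil _
  have hK0 : (0 : ℝ) < K := lt_of_lt_of_le (by positivity) hK8
  have hK : 0 < K := by exact_mod_cast hK0
  have hKρ : 1 / (K : ℝ) ≤ ρ / 8 := by
    rw [div_le_iff₀ hK0]
    rw [div_le_iff₀ hρ] at hK8
    linarith
  obtain ⟨C, hC, hgood⟩ := good_piece ρ hρ (by linarith)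
  set η₁ : ℝ := ε / (4 * (K * C)) with hη₁def
  have hη₁ : 0 < η₁ := by rw [hη₁def]; positivity
  set W : ℕ := ⌈16 / ρ⌉₊ with hWdef
  have hW16 : 16 / ρ ≤ W := Nat.le_ceil _
  have hW0 : (0 : ℝ) < W := lt_of_lt_of_le (by positivity) hW16
  set δ : ℝ := ε / (8 * (K * W * C0)) with hδdef
  have hδ : 0 < δ := by rw [hδdef]; positivity
  obtain ⟨η, A, T₂, hη, hT₂, hclose⟩ := bad_close (ρ / 8) δ η₁ (by positivity) (by linarith) hδ hη₁
  obtain ⟨η', A', T₃, hη', hT₃, hright⟩ := N799.LH.right_of_line (η₁ / 2) 2 (by positivity)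
    (by norm_num)
  obtain ⟨T₄, hT₄, hlg⟩ := N799.SP.log_large (Real.log 2 / (η₁ / 2))
  refine ⟨min η η', max A A', max (max T₁ T₂) (max T₃ T₄), by positivity,
    hT₁.trans ((le_max_left _ _).trans (le_max_left _ _)), fun T hT hSL => ?_⟩
  have hTa : T₁ ≤ T := ((le_max_left _ _).trans (le_max_left _ _)).trans hT
  have hTb : T₂ ≤ T := ((le_max_right _ _).trans (le_max_left _ _)).trans hT
  have hTc : T₃ ≤ T := ((le_max_left _ _).trans (le_max_right _ _)).trans hT
  have hTd : T₄ ≤ T := ((le_max_right _ _).trans (le_max_right _ _)).trans hT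
  have hT4 : 4 ≤ T := hT₁.trans hTa
  have hSL1 : N799.LH.SL η A T := SL_mono (min_le_left _ _) (le_max_left _ _) (by linarith) hSL
  have hSL2 : N799.LH.SL η' A' T := SL_mono (min_le_right _ _) (le_max_right _ _) (by linarith) hSL
  set L : ℝ := Real.log T with hL
  have hL0 : 0 < L := Real.log_pos (by linarith)
  set a : ℝ := η₁ * L with ha
  have ha0 : 0 ≤ a := by rw [ha]; positivity
  have hbd : ∀ w : ℂ, 1 / 2 ≤ w.re → |w.im - T| ≤ 2 → 2 * ‖riemannZeta w‖ ≤ Real.exp a := by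
    intro w h1 h2
    have h3 := hright T hTc hSL2 w h1 h2
    have h4 := hlg T hTd
    rw [div_le_iff₀ (by positivity)] at h4
    calc 2 * ‖riemannZeta w‖ ≤ Real.exp (Real.log 2) * Real.exp (η₁ / 2 * L) := by
          rw [Real.exp_log (by norm_num)]
          linarith
      _ = Real.exp (Real.log 2 + η₁ / 2 * L) := by rw [Real.exp_add]
      _ ≤ Real.exp a := by
          refine Real.exp_le_exp.2 ?_
          rw [ha]
          linarith
  set x : ℕ → ℝ := fun k => T + (-1 + (2 * (k : ℝ) + 1) / K) with hx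
  have hxn : ∀ k < K, |x k - T| ≤ 1 := fun k hk => centre_near hk T
  -- the bad parts
  have hp : ∀ k j : ℕ, ∃ p : ℝ, k < K → ∀ σ : ℝ, 1 / 2 + ρ ≤ σ → σ ≤ 1 →
      1 / 2 + j * (ρ / 16) ≤ σ → σ ≤ 1 / 2 + (j + 1) * (ρ / 16) →
      Bad (ρ / 8) a (x k) σ → σ ∈ Icc (p - δ) (p + δ) := by
    intro k j
    by_cases hex : ∃ p : ℝ, 1 / 2 + ρ ≤ p ∧ p ≤ 1 ∧ 1 / 2 + j * (ρ / 16) ≤ p ∧
        p ≤ 1 / 2 + (j + 1) * (ρ / 16) ∧ Bad (ρ / 8) a (x k) p
    · obtain ⟨p, p1, p2, p3, p4, p5⟩ := hex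
      refine ⟨p, fun hk σ s1 s2 s3 s4 s5 => ?_⟩
      rcases le_total p σ with h | h
      · have h6 := hclose T hTb hSL1 (x k) p (σ - p) (hxn k hk) (by linarith) p2 (by linarith)
          (by linarith) p5 (by rw [add_sub_cancel]; exact s5)
        exact ⟨by linarith, by linarith⟩
      · have h6 := hclose T hTb hSL1 (x k) σ (p - σ) (hxn k hk) (by linarith) s2 (by linarith)
          (by linarith) s5 (by rw [add_sub_cancel]; exact p5)
        exact ⟨by linarith, by linarith⟩
    · push Not at hex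
      exact ⟨0, fun hk σ s1 s2 s3 s4 s5 => absurd s5 (hex σ s1 s2 s3 s4)⟩
  choose p hp using hp
  -- the majorant
  set c0 : ENNReal := ENNReal.ofReal (C0 * L) with hc0
  have hmaj : ∀ σ ∈ Ioo (1 / 2 : ℝ) 1, most σ T 1 ≤ ENNReal.ofReal (K * C * a) +
      ((Icc (1 / 2 : ℝ) (1 / 2 + ρ)).indicator (fun _ => c0) σ +
        ∑ k ∈ Finset.range K, ∑ j ∈ Finset.range W,
          (Icc (p k j - δ) (p k j + δ)).indicator (fun _ => c0) σ) := by
    intro σ hσ
    have hm := hmost T σ hTa hσ.1.le hσ.2.le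
    rcases le_or_gt σ (1 / 2 + ρ) with h1 | h1
    · rw [indicator_of_mem (show σ ∈ Icc (1 / 2 : ℝ) (1 / 2 + ρ) from ⟨hσ.1.le, h1⟩)]
      exact hm.trans (le_add_left (le_add_right le_rfl))
    · by_cases hall : ∀ k < K, ¬Bad (ρ / 8) a (x k) σ
      · refine le_trans ?_ (le_add_right le_rfl)
        refine good_sigma hK hKρ fun k hk u hu => ?_
        have hxk := abs_le.1 (hxn k hk)
        refine hgood (x k) σ a (by linarith) ha0 h1.le (fun w w1 w2 => hbd w w1 ?_)
          (hall k hk) u hu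
        have w3 := abs_le.1 w2
        rw [abs_le]
        constructor <;> linarith
      · push Not at hall
        obtain ⟨k, hk, hbad⟩ := hall
        set y : ℝ := (σ - 1 / 2) / (ρ / 16) with hy
        have hy0 : 0 ≤ y := div_nonneg (by linarith [hσ.1]) (by positivity)
        have hyW : y < W := by
          refine lt_of_lt_of_le ?_ hW16
          rw [hy, div_lt_div_iff₀ (by positivity) hρ]
          nlinarith [hσ.2]
        have hj : ⌊y⌋₊ < W := (Nat.floor_lt hy0).2 hyW
        have hyy : y * (ρ / 16) = σ - 1 / 2 := by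
          rw [hy]; field_simp
        have h3 : (⌊y⌋₊ : ℝ) * (ρ / 16) ≤ σ - 1 / 2 := by
          rw [← hyy]
          exact mul_le_mul_of_nonneg_right (Nat.floor_le hy0) (by positivity)
        have h4 : σ - 1 / 2 ≤ ((⌊y⌋₊ : ℝ) + 1) * (ρ / 16) := by
          rw [← hyy]
          exact mul_le_mul_of_nonneg_right (Nat.lt_floor_add_one y).le (by positivity)
        have hmem := hp k ⌊y⌋₊ hk σ h1.le hσ.2.le (by linarith) (by linarith) hbad
        have h5 : c0 ≤ ∑ k ∈ Finset.range K, ∑ j ∈ Finset.range W,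
            (Icc (p k j - δ) (p k j + δ)).indicator (fun _ => c0) σ := by
          calc c0 = (Icc (p k ⌊y⌋₊ - δ) (p k ⌊y⌋₊ + δ)).indicator (fun _ => c0) σ := by
                rw [indicator_of_mem hmem]
            _ ≤ ∑ j ∈ Finset.range W, (Icc (p k j - δ) (p k j + δ)).indicator (fun _ => c0) σ :=
                Finset.single_le_sum (f := fun j =>
                  (Icc (p k j - δ) (p k j + δ)).indicator (fun _ => c0) σ)
                  (fun j _ => zero_le) (Finset.mem_range.2 hj)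
            _ ≤ _ :=
                Finset.single_le_sum (f := fun k => ∑ j ∈ Finset.range W,
                  (Icc (p k j - δ) (p k j + δ)).indicator (fun _ => c0) σ)
                  (fun k _ => zero_le) (Finset.mem_range.2 hk)
        exact hm.trans (h5.trans (le_add_left (le_add_left le_rfl)))
  have hind : ∀ s t : ℝ, Measurable fun σ : ℝ => (Icc s t).indicator (fun _ => c0) σ := fun s t =>
    measurable_const.indicator measurableSet_Icc
  have hindle : ∀ s t : ℝ, s ≤ t → ∫⁻ σ in Ioo (1 / 2 : ℝ) 1, (Icc s t).indicator (fun _ => c0) σ ≤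
      ENNReal.ofReal (C0 * L * (t - s)) := by
    intro s t hst
    calc ∫⁻ σ in Ioo (1 / 2 : ℝ) 1, (Icc s t).indicator (fun _ => c0) σ
        ≤ ∫⁻ σ, (Icc s t).indicator (fun _ => c0) σ := setLIntegral_le_lintegral _ _
      _ = c0 * volume (Icc s t) := lintegral_indicator_const measurableSet_Icc _
      _ = ENNReal.ofReal (C0 * L * (t - s)) := by
          rw [Real.volume_Icc, hc0, ← ENNReal.ofReal_mul (by positivity)]
  calc ∫⁻ σ in Ioo (1 / 2 : ℝ) 1, most σ T 1
      ≤ ∫⁻ σ in Ioo (1 / 2 : ℝ) 1, (ENNReal.ofReal (K * C * a) +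
        ((Icc (1 / 2 : ℝ) (1 / 2 + ρ)).indicator (fun _ => c0) σ +
        ∑ k ∈ Finset.range K, ∑ j ∈ Finset.range W,
          (Icc (p k j - δ) (p k j + δ)).indicator (fun _ => c0) σ)) :=
        setLIntegral_mono' measurableSet_Ioo hmaj
    _ = (∫⁻ σ in Ioo (1 / 2 : ℝ) 1, ENNReal.ofReal (K * C * a)) +
        ((∫⁻ σ in Ioo (1 / 2 : ℝ) 1, (Icc (1 / 2 : ℝ) (1 / 2 + ρ)).indicator (fun _ => c0) σ) +
        ∑ k ∈ Finset.range K, ∑ j ∈ Finset.range W,
          ∫⁻ σ in Ioo (1 / 2 : ℝ) 1, (Icc (p k j - δ) (p k j + δ)).indicator (fun _ => c0) σ) := by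
        rw [lintegral_add_left measurable_const, lintegral_add_left (hind _ _),
          lintegral_finsetSum _ (fun k _ => Finset.measurable_fun_sum _ fun j _ => hind _ _)]
        congr 2
        refine Finset.sum_congr rfl fun k _ => ?_
        rw [lintegral_finsetSum _ (fun j _ => hind _ _)]
    _ ≤ ENNReal.ofReal (K * C * a) + (ENNReal.ofReal (C0 * L * ρ) +
        ∑ k ∈ Finset.range K, ∑ j ∈ Finset.range W, ENNReal.ofReal (C0 * L * (2 * δ))) := by
        gcongr with k hk j hj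
        · rw [lintegral_const, Measure.restrict_apply MeasurableSet.univ, univ_inter,
            Real.volume_Ioo]
          calc ENNReal.ofReal (K * C * a) * ENNReal.ofReal (1 - 1 / 2)
              ≤ ENNReal.ofReal (K * C * a) * 1 := by
                gcongr
                rw [ENNReal.ofReal_le_one]
                norm_num
            _ = _ := mul_one _
        · have := hindle (1 / 2) (1 / 2 + ρ) (by linarith)
          rwa [add_sub_cancel_left] at this
        · have := hindle (p k j - δ) (p k j + δ) (by linarith)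
          rwa [show p k j + δ - (p k j - δ) = 2 * δ by ring] at this
    _ = ENNReal.ofReal (K * C * a + (C0 * L * ρ + K * (W * (C0 * L * (2 * δ))))) := by
        rw [ENNReal.ofReal_add (by positivity) (by positivity),
          ENNReal.ofReal_add (by positivity) (by positivity)]
        congr 2
        simp only [Finset.sum_const, Finset.card_range, nsmul_eq_mul]
        rw [ENNReal.ofReal_mul (p := (K : ℝ)) (by positivity),
          ENNReal.ofReal_mul (p := (W : ℝ)) (by positivity),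
          ENNReal.ofReal_natCast, ENNReal.ofReal_natCast]
    _ ≤ ENNReal.ofReal (ε * L) := by
        refine ENNReal.ofReal_le_ofReal ?_
        have e1 : K * C * a = ε / 4 * L := by
          rw [ha, hη₁def]
          field_simp
        have e2 : K * (W * (C0 * L * (2 * δ))) = ε / 4 * L := by
          rw [hδdef]
          field_simp
          ring
        have e3 : C0 * L * ρ ≤ ε / 4 * L := by nlinarith
        rw [e1, e2]
        have : 0 < ε * L := by positivity
        linarith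

end Pool.Agent.H779.LX
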