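import Mathlib
import Pool.Agent.H779.LX.Good

/-!
# The crossing criterion for the Lindelöf hypothesis
-/

open MeasureTheory Set Filter Topology Metric

namespace Pool.Agent.H779.LX

/-- **a large value forces points on every line** -/
theorem large_forces (κ : ℝ) (hκ : 0 < κ) (hκ1 : κ ≤ 1 / 4) (ε : ℝ) (hε : 0 < ε) :
    ∃ H T₀ : ℝ, 0 ≤ H ∧ 4 ≤ T₀ ∧ ∀ T : ℝ, T₀ ≤ T → T ^ κ ≤ ‖riemannZeta (1 / 2 + T * Complex.I)‖ →
      ∃ u : ℝ, |u - T| ≤ H ∧ ENNReal.ofReal ((κ ^ 2 / 4 - ε) * Real.log T) ≤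
        ∫⁻ σ in Ioo (1 / 2 : ℝ) 1, fewest σ u κ := by
  rcases le_or_gt (κ ^ 2 / 4) ε with hcase | hcase
  · refine ⟨0, 4, le_rfl, le_rfl, fun T hT _ => ⟨T, by simp, ?_⟩⟩
    have hL : 0 ≤ Real.log T := Real.log_nonneg (by linarith)
    rw [ENNReal.ofReal_of_nonpos (mul_nonpos_of_nonpos_of_nonneg (by linarith) hL)]
    exact zero_le
  set E : ℝ := κ / 2 - ε / κ with hE
  have hεκ : ε / κ < κ / 4 := by
    rw [div_lt_iff₀ hκ]
    nlinarith
  have hE0 : 0 ≤ E := by rw [hE]; linarith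
  set ε' : ℝ := ε / (2 * κ) with hε'
  have hε'0 : 0 < ε' := by rw [hε']; positivity
  obtain ⟨H, t₀, hH, ht₀, hstep⟩ := N799.LH.convex_step ε' κ 1 hε'0 hκ (by linarith) one_pos
  -- the lower-order terms
  have hsmall : ∀ᶠ x : ℝ in atTop, 1 / κ + Real.log (x + 7) ≤ (ε / κ) * x := by
    have h1 : Tendsto (fun x : ℝ => Real.log (x + 7) / x) atTop (𝓝 0) := by
      have h2 : Tendsto (fun x : ℝ => Real.log (x + 7) / (x + 7)) atTop (𝓝 0) :=
        (Real.isLittleO_log_id_atTop.tendsto_div_nhds_zero).comp (tendsto_atTop_add_const_right _ 7 tendsto_id)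
      have h3 : Tendsto (fun x : ℝ => (x + 7) / x) atTop (𝓝 1) := by
        have h4 : Tendsto (fun x : ℝ => 1 + 7 / x) atTop (𝓝 (1 + 0)) :=
          tendsto_const_nhds.add (tendsto_const_nhds.div_atTop tendsto_id)
        rw [add_zero] at h4
        refine h4.congr' ?_
        filter_upwards [eventually_gt_atTop (0 : ℝ)] with x hx
        field_simp
      have h5 := h2.mul h3
      rw [zero_mul] at h5
      refine h5.congr' ?_
      filter_upwards [eventually_gt_atTop (0 : ℝ)] with x hx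
      field_simp
    have h6 : Tendsto (fun x : ℝ => (1 / κ) / x) atTop (𝓝 0) :=
      tendsto_const_nhds.div_atTop tendsto_id
    have h7 := h6.add h1
    rw [add_zero] at h7
    have h8 : 0 < ε / κ := by positivity
    filter_upwards [h7.eventually_lt_const h8, eventually_gt_atTop (0 : ℝ)] with x hx hx0
    rw [← add_div, div_lt_iff₀ hx0] at hx
    exact hx.le
  obtain ⟨x₀, hx₀⟩ := eventually_atTop.1 hsmall
  obtain ⟨t₁, ht₁, hlg⟩ := N799.SP.log_large x₀
  refine ⟨1 + H, max (max t₀ t₁) (H + 10), by linarith, ht₀.trans ((le_max_left _ _).trans (le_max_left _ _)),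
    fun T hT hbig => ?_⟩
  have hTa : t₀ ≤ T := ((le_max_left _ _).trans (le_max_left _ _)).trans hT
  have hTb : t₁ ≤ T := ((le_max_right _ _).trans (le_max_left _ _)).trans hT
  have hTc : H + 10 ≤ T := (le_max_right _ _).trans hT
  have hL : 0 < Real.log T := Real.log_pos (by linarith)
  by_contra hcon
  push Not at hcon
  have hw : ∀ w : ℂ, w.re = 1 / 2 + κ → |w.im - T| ≤ 1 + H →
      ‖riemannZeta w‖ ≤ Real.exp (E * Real.log T) := by
    intro w hw1 hw2
    have h1 := hcon w.im hw2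
    have hw3 := abs_le.1 hw2
    have h2 := low_bound hκ hκ1 (T := w.im) (by linarith)
    have e1 : vp (1 / 2 + κ) w.im = w := by
      apply Complex.ext
      · rw [vp_re, hw1]
      · rw [vp_im]
    rw [e1] at h2
    have hpos : 0 < (κ ^ 2 / 4 - ε) * Real.log T := mul_pos (by linarith) hL
    have hlogw : Real.log w.im ≤ Real.log T + 1 := by
      have h8 := Real.add_one_le_exp (1 : ℝ)
      have : w.im ≤ T * Real.exp 1 := by nlinarith
      calc Real.log w.im ≤ Real.log (T * Real.exp 1) := Real.log_le_log (by linarith) this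
        _ = Real.log T + 1 := by
          rw [Real.log_mul (by linarith) (Real.exp_pos _).ne', Real.log_exp]
    have hlogw0 : 0 ≤ Real.log w.im := Real.log_nonneg (by linarith)
    have h3 : ENNReal.ofReal (Real.log ‖riemannZeta w‖) ≤
        ENNReal.ofReal (2 / κ * ((κ ^ 2 / 4 - ε) * Real.log T) +
          (1 / κ + Real.log (Real.log T + 7))) := by
      refine h2.trans ?_
      rw [ENNReal.ofReal_add (p := 2 / κ * ((κ ^ 2 / 4 - ε) * Real.log T)) (by positivity) (by
        have : 0 ≤ Real.log (Real.log T + 7) := Real.log_nonneg (by linarith)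
        positivity), ENNReal.ofReal_mul (p := 2 / κ) (by positivity)]
      refine add_le_add (mul_le_mul_right h1.le _) (ENNReal.ofReal_le_ofReal ?_)
      have : Real.log (Real.log w.im + 6) ≤ Real.log (Real.log T + 7) :=
        Real.log_le_log (by linarith) (by linarith)
      linarith
    have h4 : 2 / κ * ((κ ^ 2 / 4 - ε) * Real.log T) + (1 / κ + Real.log (Real.log T + 7)) ≤
        E * Real.log T := by
      have h5 := hx₀ (Real.log T) (hlg T hTb)
      have h6 : 2 / κ * ((κ ^ 2 / 4 - ε) * Real.log T) = (κ / 2 - 2 * (ε / κ)) * Real.log T := by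
        field_simp
        ring
      rw [h6, hE]
      linarith
    have h5 := h3.trans (ENNReal.ofReal_le_ofReal h4)
    rw [ENNReal.ofReal_le_ofReal_iff (by positivity)] at h5
    rcases eq_or_ne ‖riemannZeta w‖ 0 with h0 | h0
    · rw [h0]; exact (Real.exp_pos _).le
    · exact (Real.log_le_iff_le_exp (lt_of_le_of_ne (norm_nonneg _) h0.symm)).1 h5
  have h6 := hstep T E hTa hE0 hw (1 / 2 + T * Complex.I) (by simp; linarith) (by simp; linarith)
    (by simp)
  have e2 : (1 / 2 + T * Complex.I : ℂ).re = 1 / 2 := by simp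
  rw [e2] at h6
  have h7 : T ^ κ ≤ Real.exp ((E + 1 / 2 * (1 / 2 + κ - 1 / 2) + ε') * Real.log T) := hbig.trans h6
  rw [Real.rpow_def_of_pos (by linarith), Real.exp_le_exp] at h7
  have h8 : E + 1 / 2 * (1 / 2 + κ - 1 / 2) + ε' = κ - ε' := by
    rw [hE, hε']
    field_simp
    ring
  rw [h8] at h7
  nlinarith

/-- **points on lines force a large value** -/
theorem points_force (ε : ℝ) (hε : 0 < ε) : ∃ η H T₀ : ℝ, 0 < η ∧ 4 ≤ T₀ ∧ ∀ T : ℝ, T₀ ≤ T →
    ENNReal.ofReal (ε * Real.log T) < ∫⁻ σ in Ioo (1 / 2 : ℝ) 1, most σ T 1 →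
    ∃ u : ℝ, |u - T| ≤ H ∧ T ^ η < ‖riemannZeta (1 / 2 + u * Complex.I)‖ := by
  obtain ⟨η, A, T₀, hη, hT₀, h⟩ := few ε hε
  refine ⟨η, A, T₀, hη, hT₀, fun T hT hlt => ?_⟩
  by_contra hcon
  push Not at hcon
  refine absurd (h T hT fun y hy => ?_) (not_le.2 hlt)
  have h1 := hcon y hy
  rw [N799.LH.pt, Real.rpow_def_of_pos (by linarith), mul_comm] at h1
  exact h1

/-- a mean of `o(log T)` -/
lemma small_iff {F : ℝ → ENNReal} :
    Tendsto (fun T => F T / ENNReal.ofReal (Real.log T)) atTop (𝓝 0) ↔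
      ∀ ε : ℝ, 0 < ε → ∃ T₀ : ℝ, ∀ T : ℝ, T₀ ≤ T → F T ≤ ENNReal.ofReal (ε * Real.log T) := by
  rw [ENNReal.tendsto_nhds_zero]
  constructor
  · intro h ε hε
    obtain ⟨T₀, hT₀⟩ := eventually_atTop.1 (h (ENNReal.ofReal ε) (by simpa using hε))
    refine ⟨max T₀ 4, fun T hT => ?_⟩
    have h1 := hT₀ T ((le_max_left _ _).trans hT)
    have h4 : 4 ≤ T := (le_max_right _ _).trans hT
    have hL : 0 < Real.log T := Real.log_pos (by linarith)
    rw [ENNReal.div_le_iff_le_mul (Or.inl (by simpa using hL)) (Or.inl ENNReal.ofReal_ne_top)] at h1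
    rwa [ENNReal.ofReal_mul hε.le]
  · intro h e he
    by_cases htop : e = ⊤
    · rw [htop]; exact Eventually.of_forall fun _ => le_top
    · have he0 : 0 < e.toReal := ENNReal.toReal_pos he.ne' htop
      obtain ⟨T₀, hT₀⟩ := h e.toReal he0
      filter_upwards [eventually_ge_atTop T₀, eventually_ge_atTop (4 : ℝ)] with T h1 h4
      have hL : 0 < Real.log T := Real.log_pos (by linarith)
      rw [ENNReal.div_le_iff_le_mul (Or.inl (by simpa using hL)) (Or.inl ENNReal.ofReal_ne_top)]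
      have h5 := hT₀ T h1
      rwa [ENNReal.ofReal_mul he0.le, ENNReal.ofReal_toReal htop] at h5

/-- LH from few points on the best line -/
theorem lh_of_fewest (h : ∀ ε : ℝ, 0 < ε → ∃ T₀ : ℝ, ∀ T : ℝ, T₀ ≤ T →
    ∫⁻ σ in Ioo (1 / 2 : ℝ) 1, fewest σ T 1 ≤ ENNReal.ofReal (ε * Real.log T)) :
    N799.LH.LHyp := by
  refine N799.LH.LHyp_of (h := fun ε₀ hε₀ => ?_)
  set κ : ℝ := min ε₀ (1 / 4) with hκdef
  have hκ : 0 < κ := by rw [hκdef]; positivity
  have hκ4 : κ ≤ 1 / 4 := min_le_right _ _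
  obtain ⟨H, T₁, hH, hT₁, h1⟩ := large_forces κ hκ hκ4 (κ ^ 2 / 8) (by positivity)
  obtain ⟨T₂, h2⟩ := h (κ ^ 2 / 32) (by positivity)
  refine ⟨max T₁ (max (T₂ + H) (H + 10)), fun t ht => ?_⟩
  have hta : T₁ ≤ t := (le_max_left _ _).trans ht
  have htb : T₂ + H ≤ t := ((le_max_left _ _).trans (le_max_right _ _)).trans ht
  have htc : H + 10 ≤ t := ((le_max_right _ _).trans (le_max_right _ _)).trans ht
  have hL : 0 < Real.log t := Real.log_pos (by linarith)
  by_contra hcon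
  push Not at hcon
  have hbig : t ^ κ ≤ ‖riemannZeta (1 / 2 + t * Complex.I)‖ := by
    rw [N799.LH.pt]
    refine le_trans ?_ hcon.le
    rw [Real.rpow_def_of_pos (by linarith), mul_comm]
    refine Real.exp_le_exp.2 ?_
    exact mul_le_mul_of_nonneg_right (min_le_left _ _) hL.le
  obtain ⟨u, hu, h3⟩ := h1 t hta hbig
  have hu' := abs_le.1 hu
  have h4 : ∫⁻ σ in Ioo (1 / 2 : ℝ) 1, fewest σ u κ ≤ ENNReal.ofReal (κ ^ 2 / 32 * Real.log u) := by
    refine le_trans ?_ (h2 u (by linarith))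
    refine lintegral_mono fun σ => ?_
    exact fewest_mono σ (by rw [sub_self, abs_zero, zero_add]; linarith)
  have h5 := h3.trans h4
  have hu0 : 0 < Real.log u := Real.log_pos (by linarith)
  have h6 : Real.log u ≤ 2 * Real.log t := by
    have : u ≤ t ^ 2 := by nlinarith
    calc Real.log u ≤ Real.log (t ^ 2) := Real.log_le_log (by linarith) this
      _ = 2 * Real.log t := by rw [Real.log_pow]; norm_num
  rw [ENNReal.ofReal_le_ofReal_iff (by positivity)] at h5
  have h7 : 0 < κ ^ 2 * Real.log t := by positivity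
  nlinarith

/-- **the crossing criterion** -/
theorem criterion : List.TFAE [
    ∀ ε : ℝ, 0 < ε → ∃ C : ℝ, ∀ t : ℝ, ‖riemannZeta (1 / 2 + t * Complex.I)‖ ≤ C * (1 + |t|) ^ ε,
    Tendsto (fun T => (∫⁻ σ in Ioo (1 / 2 : ℝ) 1, fewest σ T 1) / ENNReal.ofReal (Real.log T))
      atTop (𝓝 0),
    Tendsto (fun T => (∫⁻ σ in Ioo (1 / 2 : ℝ) 1, onReal σ T 1) / ENNReal.ofReal (Real.log T))
      atTop (𝓝 0),
    Tendsto (fun T => (∫⁻ σ in Ioo (1 / 2 : ℝ) 1, most σ T 1) / ENNReal.ofReal (Real.log T))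
      atTop (𝓝 0)] := by
  rw [small_iff, small_iff, small_iff]
  tfae_have 1 → 4 := by
    intro h ε hε
    obtain ⟨η, A, T₀, hη, hT₀, h1⟩ := few ε hε
    obtain ⟨t₀, ht₀, h2⟩ := N799.LH.SL_of_LHyp h η A hη
    exact ⟨max T₀ t₀, fun T hT => h1 T ((le_max_left _ _).trans hT)
      (h2 T ((le_max_right _ _).trans hT))⟩
  tfae_have 4 → 3 := by
    intro h ε hε
    obtain ⟨T₀, h1⟩ := h ε hε
    exact ⟨T₀, fun T hT => (lintegral_mono fun σ => onReal_le_most σ T 1).trans (h1 T hT)⟩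
  tfae_have 3 → 2 := by
    intro h ε hε
    obtain ⟨T₀, h1⟩ := h ε hε
    exact ⟨T₀, fun T hT => (lintegral_mono fun σ => fewest_le_onReal σ T 1).trans (h1 T hT)⟩
  tfae_have 2 → 1 := fun h => lh_of_fewest h
  tfae_finish

end Pool.Agent.H779.LX
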